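import Pool.Agent.Helper28.Haar

set_option autoImplicit false
set_option linter.unusedSectionVars false

open MeasureTheory Set Filter Topology
open scoped ContDiff RealInnerProductSpace Gradient
open Pool.Agent.Helper28

attribute [local instance] compactSpace_UG secondCountable_UG measUG borelUG

namespace Pool.Agent.TH337.HW

variable {V : Type*} [NormedAddCommGroup V] [InnerProductSpace ℝ V] [CompleteSpace V]
  [FiniteDimensional ℝ V] [MeasurableSpace V] [BorelSpace V]

/-- normalized Haar measure -/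
noncomputable def PP (V : Type*) [NormedAddCommGroup V] [InnerProductSpace ℝ V] [CompleteSpace V]
  [FiniteDimensional ℝ V] : Measure ((unitary (V →L[ℝ] V))) := Measure.haarMeasure ⊤

instance : IsProbabilityMeasure (PP V) := ⟨by
  have := Measure.haarMeasure_self (G := unitary (V →L[ℝ] V)) (K₀ := ⊤)
  simpa [PP] using this⟩

instance : (PP V).IsMulLeftInvariant := by unfold PP; infer_instance

/-- the action as a continuous linear map -/
noncomputable def actL (Q : (unitary (V →L[ℝ] V))) : V →L[ℝ] V := ((Q⁻¹ : (unitary (V →L[ℝ] V))) : V →L[ℝ] V)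

lemma actL_apply (Q : (unitary (V →L[ℝ] V))) (x : V) : actL Q x = act Q x := rfl

lemma actL_cont : Continuous (fun Q : (unitary (V →L[ℝ] V)) => actL Q) :=
  continuous_subtype_val.comp continuous_inv

lemma actL_norm (Q : (unitary (V →L[ℝ] V))) : ‖actL Q‖ ≤ 1 :=
  ContinuousLinearMap.opNorm_le_bound _ zero_le_one fun x => by
    rw [one_mul, actL_apply, act_norm]

/-- average over the orthogonal group -/
noncomputable def avg (u : V → ℝ) (x : V) : ℝ := ∫ Q, u (act Q x) ∂(PP V)

lemma cont_xQ : Continuous (fun p : V × (unitary (V →L[ℝ] V)) => act p.2 p.1) := by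
  have e1 : Continuous (fun p : V × unitary (V →L[ℝ] V) => (p.2, p.1)) :=
    continuous_snd.prodMk continuous_fst
  have e2 := act_continuous.comp e1
  exact e2

lemma cont_Q (x : V) : Continuous (fun Q : (unitary (V →L[ℝ] V)) => act Q x) := by
  have e1 : Continuous (fun Q : unitary (V →L[ℝ] V) => (Q, x)) :=
    continuous_id.prodMk continuous_const
  have e2 := act_continuous.comp e1
  exact e2

lemma avg_hasFDerivAt {u : V → ℝ} (hu : ContDiff ℝ 1 u) (hc : HasCompactSupport u) (x : V) :
    HasFDerivAt (avg u) (∫ Q, (fderiv ℝ u (act Q x)).comp (actL Q) ∂(PP V)) x := by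
  have hfc : Continuous (fderiv ℝ u) := hu.continuous_fderiv (by norm_num)
  obtain ⟨C, hC⟩ := hfc.bounded_above_of_compact_support (hc.fderiv (𝕜 := ℝ))
  have m1 : ∀ x : V, Continuous (fun Q : unitary (V →L[ℝ] V) => u (act Q x)) := fun x =>
    hu.continuous.comp (cont_Q x)
  have m2 : Continuous (fun Q : unitary (V →L[ℝ] V) => (fderiv ℝ u (act Q x)).comp (actL Q)) :=
    (hfc.comp (cont_Q x)).clm_comp actL_cont
  have m3 : ∀ (Q : unitary (V →L[ℝ] V)) (x : V), ‖(fderiv ℝ u (act Q x)).comp (actL Q)‖ ≤ C := by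
    intro Q x
    refine (ContinuousLinearMap.opNorm_comp_le _ _).trans ?_
    calc ‖fderiv ℝ u (act Q x)‖ * ‖actL Q‖ ≤ C * 1 :=
          mul_le_mul (hC _) (actL_norm Q) (norm_nonneg _) ((norm_nonneg _).trans (hC 0))
      _ = C := mul_one C
  have m4 : ∀ (Q : unitary (V →L[ℝ] V)) (x : V),
      HasFDerivAt (fun x => u (act Q x)) ((fderiv ℝ u (act Q x)).comp (actL Q)) x := by
    intro Q x
    have h1 : HasFDerivAt u (fderiv ℝ u (act Q x)) (actL Q x) :=
      (hu.differentiable (by norm_num) _).hasFDerivAt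
    exact h1.comp x (actL Q).hasFDerivAt
  have m5 : Integrable (fun Q : unitary (V →L[ℝ] V) => u (act Q x)) (PP V) :=
    (m1 x).integrable_of_hasCompactSupport (HasCompactSupport.of_compactSpace _)
  exact hasFDerivAt_integral_of_dominated_of_fderiv_le (μ := PP V) (s := univ)
    (bound := fun _ => C) (F := fun (x : V) (Q : unitary (V →L[ℝ] V)) => u (act Q x))
    (F' := fun (x : V) (Q : unitary (V →L[ℝ] V)) => (fderiv ℝ u (act Q x)).comp (actL Q))
    univ_mem (Eventually.of_forall fun x => (m1 x).aestronglyMeasurable) m5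
    m2.aestronglyMeasurable (Eventually.of_forall fun Q x _ => m3 Q x) (integrable_const C)
    (Eventually.of_forall fun Q x _ => m4 Q x)

lemma avg_contDiff {u : V → ℝ} (hu : ContDiff ℝ 1 u) (hc : HasCompactSupport u) :
    ContDiff ℝ 1 (avg u) := by
  rw [contDiff_one_iff_fderiv]
  refine ⟨fun x => (avg_hasFDerivAt hu hc x).differentiableAt, ?_⟩
  have e : fderiv ℝ (avg u) = fun x => ∫ Q, (fderiv ℝ u (act Q x)).comp (actL Q) ∂(PP V) := by
    ext1 x; exact (avg_hasFDerivAt hu hc x).fderiv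
  rw [e]
  have hfc : Continuous (fderiv ℝ u) := hu.continuous_fderiv (by norm_num)
  have h := continuous_parametric_integral_of_continuous (μ := PP V)
    (f := fun (x : V) (Q : (unitary (V →L[ℝ] V))) => (fderiv ℝ u (act Q x)).comp (actL Q))
    ((hfc.comp cont_xQ).clm_comp (actL_cont.comp continuous_snd)) (s := Set.univ) isCompact_univ
  simpa using h

lemma avg_hcs {u : V → ℝ} (hc : HasCompactSupport u) : HasCompactSupport (avg u) := by
  obtain ⟨R, hR⟩ := hc.isCompact.isBounded.subset_closedBall (0 : V)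
  refine HasCompactSupport.intro (isCompact_closedBall (0 : V) R) fun x hx => ?_
  unfold avg
  have : ∀ Q : (unitary (V →L[ℝ] V)), u (act Q x) = 0 := by
    intro Q
    refine image_eq_zero_of_notMem_tsupport fun h => hx ?_
    have := hR h
    rw [mem_closedBall_zero_iff, act_norm] at this
    rwa [mem_closedBall_zero_iff]
  simp [this]

lemma act_act (g Q : (unitary (V →L[ℝ] V))) (x : V) : act Q (act g x) = act (g * Q) x := by
  simp [act, mul_inv_rev]

lemma avg_inv (u : V → ℝ) (g : (unitary (V →L[ℝ] V))) (x : V) : avg u (act g x) = avg u x := by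
  unfold avg
  simp_rw [act_act]
  exact integral_mul_left_eq_self (μ := PP V) (fun Q => u (act Q x)) g

lemma int_act (Q : (unitary (V →L[ℝ] V))) (F : V → ℝ) : ∫ x, F (act Q x) = ∫ x, F x := by
  let e : V ≃ₗᵢ[ℝ] V := Unitary.linearIsometryEquiv Q⁻¹
  exact e.measurePreserving.integral_comp e.toHomeomorph.measurableEmbedding F

lemma avg_pair {h u : V → ℝ} (hh : Continuous h) (hinv : ∀ Q x, h (act Q x) = h x)
    (hu : Continuous u) (hc : HasCompactSupport u) :
    ∫ x, h x * avg u x = ∫ x, h x * u x := by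
  have h1 := integral_integral_swap_of_hasCompactSupport (μ := (volume : Measure (V))) (ν := PP V)
    (f := fun x Q => h x * u (act Q x)) ((hh.comp continuous_fst).mul (hu.comp cont_xQ)) (by
      obtain ⟨R, hR⟩ := hc.isCompact.isBounded.subset_closedBall (0 : V)
      refine HasCompactSupport.intro ((isCompact_closedBall (0 : V) R).prod isCompact_univ)
        fun p hp => ?_
      obtain ⟨x, Q⟩ := p
      have hx : x ∉ Metric.closedBall (0 : V) R := fun h => hp ⟨h, mem_univ _⟩
      have : u (act Q x) = 0 := by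
        refine image_eq_zero_of_notMem_tsupport fun h => hx ?_
        have := hR h
        rw [mem_closedBall_zero_iff, act_norm] at this
        rwa [mem_closedBall_zero_iff]
      simp [this])
  have h2 : ∀ Q : (unitary (V →L[ℝ] V)), ∫ x, h x * u (act Q x) = ∫ x, h x * u x := by
    intro Q
    rw [← int_act Q (fun x => h x * u x)]
    simp only [hinv]
  simp_rw [h2] at h1
  simp only [integral_const, probReal_univ, one_smul] at h1
  rw [← h1]
  congr 1
  ext x
  rw [integral_const_mul]
  rfl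

lemma fderiv_inv {a : V → ℝ} (ha : ContDiff ℝ 1 a) (hinv : ∀ Q x, a (act Q x) = a x)
    (Q : (unitary (V →L[ℝ] V))) (x : V) : (fderiv ℝ a (act Q x)).comp (actL Q) = fderiv ℝ a x := by
  have h1 : HasFDerivAt a (fderiv ℝ a (act Q x)) (actL Q x) :=
      (ha.differentiable (by norm_num) _).hasFDerivAt
  have h2 := h1.comp x (actL Q).hasFDerivAt
  have h3 : a ∘ actL Q = a := by ext x; exact hinv Q x
  rw [h3] at h2
  exact h2.fderiv.symm

lemma act_surj (Q : (unitary (V →L[ℝ] V))) (w : V) : ∃ w', act Q w' = w := by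
  refine ⟨act Q⁻¹ w, ?_⟩
  rw [act_act]
  simp [act]

lemma grad_inv {a : V → ℝ} (ha : ContDiff ℝ 1 a) (hinv : ∀ Q x, a (act Q x) = a x)
    (Q : (unitary (V →L[ℝ] V))) (x : V) : gradient a (act Q x) = act Q (gradient a x) := by
  refine ext_inner_right ℝ fun w => ?_
  obtain ⟨w', rfl⟩ := act_surj Q w
  rw [act_inner]
  unfold gradient
  rw [InnerProductSpace.toDual_symm_apply, InnerProductSpace.toDual_symm_apply,
    ← fderiv_inv ha hinv Q x]
  rfl

lemma norm_fderiv_inv {a : V → ℝ} (ha : ContDiff ℝ 1 a) (hinv : ∀ Q x, a (act Q x) = a x)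
    (Q : (unitary (V →L[ℝ] V))) (x : V) : ‖fderiv ℝ a (act Q x)‖ = ‖fderiv ℝ a x‖ := by
  have h := grad_inv ha hinv Q x
  have e : ∀ y, ‖gradient a y‖ = ‖fderiv ℝ a y‖ := fun y => by
    unfold gradient; exact (InnerProductSpace.toDual ℝ (V)).symm.norm_map _
  rw [← e, ← e, h, act_norm]

lemma swapVQ {f : V → (unitary (V →L[ℝ] V)) → ℝ} (hf : Continuous (Function.uncurry f)) {R : ℝ}
    (hR : ∀ x Q, R < ‖x‖ → f x Q = 0) :
    ∫ x, (∫ Q, f x Q ∂(PP V)) = ∫ Q, (∫ x, f x Q) ∂(PP V) := by
  refine integral_integral_swap_of_hasCompactSupport (μ := (volume : Measure V)) (ν := PP V) hf ?_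
  refine HasCompactSupport.intro ((isCompact_closedBall (0 : V) R).prod isCompact_univ)
    fun p hp => ?_
  obtain ⟨x, Q⟩ := p
  have hx : x ∉ Metric.closedBall (0 : V) R := fun h => hp ⟨h, mem_univ _⟩
  rw [mem_closedBall_zero_iff, not_le] at hx
  exact hR x Q hx

lemma gradient_cont {a : V → ℝ} (ha : ContDiff ℝ 1 a) : Continuous (gradient a) :=
  (InnerProductSpace.toDual ℝ V).symm.continuous.comp (ha.continuous_fderiv (by norm_num))

lemma norm_gradient (a : V → ℝ) (x : V) : ‖gradient a x‖ = ‖fderiv ℝ a x‖ := by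
  unfold gradient
  exact (InnerProductSpace.toDual ℝ V).symm.norm_map _

lemma fderiv_gradient (a : V → ℝ) (x : V) :
    fderiv ℝ a x (gradient a x) = ‖fderiv ℝ a x‖ ^ 2 := by
  have h4 : fderiv ℝ a x (gradient a x) = ⟪gradient a x, gradient a x⟫ := by
    conv_lhs => rw [← (InnerProductSpace.toDual ℝ V).apply_symm_apply (fderiv ℝ a x)]
    rfl
  rw [h4, real_inner_self_eq_norm_sq, norm_gradient]

lemma grad_pair {h : V → ℝ} (hh : Continuous h)
    (hρ : ∀ (Q : (unitary (V →L[ℝ] V))) (x : V), h (act Q x) = h x)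
    {u : V → ℝ} (hu : ContDiff ℝ 1 u) (hc : HasCompactSupport u) :
    ∫ x, h x * fderiv ℝ u x (gradient (avg u) x) =
      ∫ x, h x * ‖fderiv ℝ (avg u) x‖ ^ 2 := by
  have hfc : Continuous (fderiv ℝ u) := hu.continuous_fderiv (by norm_num)
  have hac := avg_contDiff hu hc
  have hgc : Continuous (gradient (avg u)) := gradient_cont hac
  have hinv := avg_inv u
  set g : V → V := gradient (avg u) with hg
  have c1 : Continuous (fun p : V × unitary (V →L[ℝ] V) => fderiv ℝ u (act p.2 p.1)) :=
    hfc.comp cont_xQ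
  have c2 : Continuous (fun p : V × unitary (V →L[ℝ] V) => act p.2 (g p.1)) := by
    have e1 : Continuous (fun p : V × unitary (V →L[ℝ] V) => (p.2, g p.1)) :=
      continuous_snd.prodMk (hgc.comp continuous_fst)
    have e2 := act_continuous.comp e1
    exact e2
  have c3 : Continuous (fun p : V × unitary (V →L[ℝ] V) =>
      fderiv ℝ u (act p.2 p.1) (act p.2 (g p.1))) := c1.clm_apply c2
  have c4 : Continuous (fun p : V × unitary (V →L[ℝ] V) =>
      h p.1 * fderiv ℝ u (act p.2 p.1) (act p.2 (g p.1))) := (hh.comp continuous_fst).mul c3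
  obtain ⟨R, hR⟩ := hc.isCompact.isBounded.subset_closedBall (0 : V)
  have hz : ∀ (x : V) (Q : unitary (V →L[ℝ] V)), R < ‖x‖ →
      h x * fderiv ℝ u (act Q x) (act Q (g x)) = 0 := by
    intro x Q hx
    have : fderiv ℝ u (act Q x) = 0 := by
      refine image_eq_zero_of_notMem_tsupport fun h => ?_
      have := hR (tsupport_fderiv_subset ℝ h)
      rw [mem_closedBall_zero_iff, act_norm] at this
      linarith
    rw [this]; simp
  have h1 := swapVQ (f := fun x Q => h x * fderiv ℝ u (act Q x) (act Q (g x))) c4 hz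
  have h2 : ∀ Q : (unitary (V →L[ℝ] V)), ∫ x, h x * fderiv ℝ u (act Q x) (act Q (g x)) =
      ∫ x, h x * fderiv ℝ u x (g x) := by
    intro Q
    rw [← int_act Q (fun x => h x * fderiv ℝ u x (g x))]
    simp only [hρ, hg, grad_inv hac hinv]
  simp_rw [h2] at h1
  simp only [integral_const, probReal_univ, one_smul] at h1
  rw [← h1]
  congr 1
  ext x
  rw [integral_const_mul]
  congr 1
  have c5 : Continuous (fun Q : unitary (V →L[ℝ] V) => (fderiv ℝ u (act Q x)).comp (actL Q)) :=
    (hfc.comp (cont_Q x)).clm_comp actL_cont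
  have c6 : Integrable (fun Q : unitary (V →L[ℝ] V) => (fderiv ℝ u (act Q x)).comp (actL Q))
      (PP V) := c5.integrable_of_hasCompactSupport (HasCompactSupport.of_compactSpace _)
  have h3 : ∫ Q, ((fderiv ℝ u (act Q x)).comp (actL Q)) (g x) ∂(PP V) =
      (∫ Q, (fderiv ℝ u (act Q x)).comp (actL Q) ∂(PP V)) (g x) :=
    (ContinuousLinearMap.integral_apply c6 (g x)).symm
  have h5 : ∫ Q, fderiv ℝ u (act Q x) (act Q (g x)) ∂(PP V) =
      ∫ Q, ((fderiv ℝ u (act Q x)).comp (actL Q)) (g x) ∂(PP V) := rfl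
  rw [h5, h3, ← (avg_hasFDerivAt hu hc x).fderiv, hg, fderiv_gradient]

/-- transitivity of the orthogonal group on spheres -/
lemma exists_act {m : ℕ} (hfr : Module.finrank ℝ V = m + 1) {x y : V} (h : ‖x‖ = ‖y‖) :
    ∃ Q : (unitary (V →L[ℝ] V)), act Q x = y := by
  by_cases hx : x = 0
  · subst hx
    rw [norm_zero] at h
    have hy : y = 0 := norm_eq_zero.1 h.symm
    subst hy
    exact ⟨1, by simp [act]⟩
  have hx0 : 0 < ‖x‖ := norm_pos_iff.2 hx
  have hy0 : 0 < ‖y‖ := h ▸ hx0
  obtain ⟨b, hb⟩ := exists_onb1 hfr ((‖x‖)⁻¹ • x) (by rw [norm_smul, norm_inv, norm_norm, inv_mul_cancel₀ hx0.ne'])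
  obtain ⟨c, hc⟩ := exists_onb1 hfr ((‖y‖)⁻¹ • y) (by rw [norm_smul, norm_inv, norm_norm, inv_mul_cancel₀ hy0.ne'])
  obtain ⟨g, hg⟩ := exists_UG b c
  refine ⟨g⁻¹, ?_⟩
  have h0 := hg 0
  rw [hb, hc, map_smul, h] at h0
  have h1 : ((g : (unitary (V →L[ℝ] V))) : V →L[ℝ] V) x = y := by
    have := smul_right_injective V (inv_ne_zero hy0.ne') h0
    exact this
  simpa [act] using h1

end Pool.Agent.TH337.HW
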