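import Pool.Agent.TH337.HW.Lower
import Pool.Agent.H212R2.KLS.R4

set_option autoImplicit false

open MeasureTheory Set Filter Topology
open scoped ContDiff RealInnerProductSpace Gradient

namespace Pool.Agent.TH337.HW

variable {n : ℕ}

/-- Gaussian Poincaré inequality for compactly supported functions with zero Gaussian mean. -/
lemma gauss_poincare {f : E n → ℝ} (hf : ContDiff ℝ 1 f) (hc : HasCompactSupport f) {t : ℝ}
    (ht : 0 < t) (h0 : ∫ x, f x * Real.exp (-(t * ‖x‖ ^ 2)) = 0) :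
    ∫ x, f x ^ 2 * Real.exp (-(t * ‖x‖ ^ 2)) ≤
      (2 * t)⁻¹ * ∫ x, ‖fderiv ℝ f x‖ ^ 2 * Real.exp (-(t * ‖x‖ ^ 2)) := by
  obtain ⟨R, hR⟩ := hc.isCompact.isBounded.subset_closedBall (0 : E n)
  have hfz : ∀ x, x ∉ Metric.closedBall (0 : E n) R → f x = 0 := fun x hx =>
    image_eq_zero_of_notMem_tsupport (fun h => hx (hR h))
  have hdz : ∀ x, x ∉ Metric.closedBall (0 : E n) R → fderiv ℝ f x = 0 := fun x hx =>
    image_eq_zero_of_notMem_tsupport (fun h => hx (hR (tsupport_fderiv_subset ℝ h)))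
  set w : E n → ℝ := (Metric.closedBall (0 : E n) R).indicator
    (fun x => Real.exp (-(t * ‖x‖ ^ 2))) with hw
  have hw0 : ∀ x, 0 ≤ w x := fun x => indicator_nonneg (fun _ _ => (Real.exp_pos _).le) x
  have hwm : Measurable w := by
    refine Measurable.indicator ?_ measurableSet_closedBall
    fun_prop
  have hwb : ∃ B, ∀ x, w x ≤ B := by
    refine ⟨1, fun x => ?_⟩
    by_cases hx : x ∈ Metric.closedBall (0 : E n) R
    · rw [hw, indicator_of_mem hx, Real.exp_le_one_iff]
      have : 0 ≤ t * ‖x‖ ^ 2 := by positivity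
      linarith
    · rw [hw, indicator_of_notMem hx]; exact zero_le_one
  have hws : Pool.Agent.H212R2.KLS.Bdd w := by
    refine ⟨R, fun x hx => ?_⟩
    rw [hw, indicator_of_notMem]
    simpa using hx
  have hmid : ∀ x y, w x * w y ≤ (w ((1 / 2 : ℝ) • (x + y))) ^ 2 *
      Real.exp (-(2 * t / 4 * ‖x - y‖ ^ 2)) := by
    intro x y
    by_cases hx : x ∈ Metric.closedBall (0 : E n) R
    · by_cases hy : y ∈ Metric.closedBall (0 : E n) R
      · have hm : (1 / 2 : ℝ) • (x + y) ∈ Metric.closedBall (0 : E n) R := by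
          rw [smul_add]
          exact (convex_closedBall (0 : E n) R) hx hy (by norm_num) (by norm_num) (by norm_num)
        rw [hw, indicator_of_mem hx, indicator_of_mem hy, indicator_of_mem hm, ← Real.exp_add,
          ← Real.exp_nat_mul, ← Real.exp_add]
        refine le_of_eq ?_
        congr 1
        have h1 := parallelogram_law_with_norm ℝ x y
        rw [norm_smul, mul_pow]
        norm_num
        nlinarith [h1]
      · rw [hw, indicator_of_notMem hy, mul_zero]; positivity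
    · rw [hw, indicator_of_notMem hx, zero_mul]; positivity
  obtain ⟨c, hcc⟩ := Pool.Agent.H212R2.KLS.poincare_of_strong (volume : Measure (E n)) w hw0 hwm hwb
    hws (2 * t) (by positivity) hmid f hf
  have hfw : ∀ x, f x * w x = f x * Real.exp (-(t * ‖x‖ ^ 2)) := by
    intro x
    by_cases hx : x ∈ Metric.closedBall (0 : E n) R
    · rw [hw, indicator_of_mem hx]
    · rw [hfz x hx]; simp
  have hfw2 : ∀ x, f x ^ 2 * w x = f x ^ 2 * Real.exp (-(t * ‖x‖ ^ 2)) := by
    intro x
    rw [pow_two, mul_assoc, hfw, ← mul_assoc]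
  have hdw : ∀ x, ‖fderiv ℝ f x‖ ^ 2 * w x = ‖fderiv ℝ f x‖ ^ 2 * Real.exp (-(t * ‖x‖ ^ 2)) := by
    intro x
    by_cases hx : x ∈ Metric.closedBall (0 : E n) R
    · rw [hw, indicator_of_mem hx]
    · rw [hdz x hx]; simp
  simp_rw [hdw] at hcc
  refine le_trans ?_ hcc
  have hce : Continuous (fun x : E n => Real.exp (-(t * ‖x‖ ^ 2))) := by fun_prop
  have i1 : Integrable (fun x => f x ^ 2 * Real.exp (-(t * ‖x‖ ^ 2))) :=
    ((hf.continuous.pow 2).mul hce).integrable_of_hasCompactSupport (hcs_sq hc).mul_right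
  have i2 : Integrable (fun x => f x * Real.exp (-(t * ‖x‖ ^ 2))) :=
    (hf.continuous.mul hce).integrable_of_hasCompactSupport hc.mul_right
  have i3 : Integrable w := by
    rw [hw, integrable_indicator_iff measurableSet_closedBall]
    exact hce.continuousOn.integrableOn_compact (isCompact_closedBall _ _)
  have e : ∀ x, (f x - c) ^ 2 * w x = f x ^ 2 * Real.exp (-(t * ‖x‖ ^ 2))
      - 2 * c * (f x * Real.exp (-(t * ‖x‖ ^ 2))) + c ^ 2 * w x := by
    intro x
    rw [← hfw, ← hfw2]; ring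
  simp_rw [e]
  have i12 : Integrable (fun x => f x ^ 2 * Real.exp (-(t * ‖x‖ ^ 2))
      - 2 * c * (f x * Real.exp (-(t * ‖x‖ ^ 2)))) := i1.sub (i2.const_mul _)
  rw [integral_add i12 (i3.const_mul _), integral_sub i1 (i2.const_mul _), integral_const_mul,
    integral_const_mul, h0]
  have : 0 ≤ ∫ x, w x := integral_nonneg hw0
  nlinarith [mul_nonneg (sq_nonneg c) this]

/-- mixtures of Gaussians -/
lemma mix {g : E n → ℝ} (hg : Continuous g) (hc : HasCompactSupport g) {a : ℝ} (ha : 0 < a) :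
    ∫ t in Ioi (0 : ℝ), t ^ (a - 1) * Real.exp (-t) * ∫ x, g x * Real.exp (-(t * ‖x‖ ^ 2)) =
      Real.Gamma a * ∫ x, rho x ^ (-a) * g x := by
  have hgi : Integrable g := hg.integrable_of_hasCompactSupport hc
  have hti : Integrable (fun t : ℝ => t ^ (a - 1) * Real.exp (-t)) (volume.restrict (Ioi 0)) := by
    have := Real.GammaIntegral_convergent ha
    refine this.congr ?_
    exact Eventually.of_forall fun t => mul_comm _ _
  have hprod : Integrable (fun z : ℝ × E n => (z.1 ^ (a - 1) * Real.exp (-z.1)) *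
      (g z.2 * Real.exp (-(z.1 * ‖z.2‖ ^ 2)))) ((volume.restrict (Ioi 0)).prod volume) := by
    have h1 : Integrable (fun z : ℝ × E n => (z.1 ^ (a - 1) * Real.exp (-z.1)) * g z.2)
      ((volume.restrict (Ioi 0)).prod volume) := hti.mul_prod hgi
    refine h1.mono ?_ ?_
    · have m1 : Measurable (fun z : ℝ × E n => z.1 ^ (a - 1)) := by fun_prop
      have m2 : Measurable (fun z : ℝ × E n => Real.exp (-z.1)) := by fun_prop
      have m3 : Measurable (fun z : ℝ × E n => g z.2) := hg.measurable.comp measurable_snd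
      have m4 : Measurable (fun z : ℝ × E n => Real.exp (-(z.1 * ‖z.2‖ ^ 2))) := by fun_prop
      exact ((m1.mul m2).mul (m3.mul m4)).aestronglyMeasurable
    · have : ∀ᵐ z : ℝ × E n ∂((volume.restrict (Ioi 0)).prod volume), 0 < z.1 := by
        have h2 : ∀ᵐ t ∂(volume.restrict (Ioi (0 : ℝ))), 0 < t :=
          ae_restrict_mem measurableSet_Ioi
        exact Measure.quasiMeasurePreserving_fst.ae h2
      filter_upwards [this] with z hz
      rw [norm_mul, norm_mul (_ * _), norm_mul (g z.2)]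
      refine mul_le_mul_of_nonneg_left ?_ (norm_nonneg _)
      refine mul_le_of_le_one_right (norm_nonneg _) ?_
      rw [Real.norm_of_nonneg (Real.exp_pos _).le, Real.exp_le_one_iff]
      have : 0 ≤ z.1 * ‖z.2‖ ^ 2 := by positivity
      linarith
  have h2 : ∫ t in Ioi (0 : ℝ), t ^ (a - 1) * Real.exp (-t) * ∫ x, g x * Real.exp (-(t * ‖x‖ ^ 2))
      = ∫ t in Ioi (0 : ℝ), ∫ x, (t ^ (a - 1) * Real.exp (-t)) *
        (g x * Real.exp (-(t * ‖x‖ ^ 2))) := by
    congr 1; ext t
    rw [integral_const_mul]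
  rw [h2, integral_integral_swap hprod, ← integral_const_mul]
  congr 1
  ext x
  have hr := rho_pos x
  have e : ∀ t : ℝ, (t ^ (a - 1) * Real.exp (-t)) * (g x * Real.exp (-(t * ‖x‖ ^ 2))) =
      g x * (t ^ (a - 1) * Real.exp (-(rho x * t))) := by
    intro t
    have : -(rho x * t) = -t + -(t * ‖x‖ ^ 2) := by unfold rho; ring
    rw [this, Real.exp_add]; ring
  simp_rw [e]
  rw [integral_const_mul, Real.integral_rpow_mul_exp_neg_mul_Ioi ha hr, Real.rpow_neg hr.le,
    one_div, Real.inv_rpow hr.le]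
  ring

lemma mix_int {g : E n → ℝ} (hg : Continuous g) (hc : HasCompactSupport g) {a : ℝ} (ha : 0 < a) :
    Integrable (fun t : ℝ => t ^ (a - 1) * Real.exp (-t) * ∫ x, g x * Real.exp (-(t * ‖x‖ ^ 2)))
      (volume.restrict (Ioi 0)) := by
  have hgi : Integrable g := hg.integrable_of_hasCompactSupport hc
  have hti : Integrable (fun t : ℝ => t ^ (a - 1) * Real.exp (-t)) (volume.restrict (Ioi 0)) := by
    have := Real.GammaIntegral_convergent ha
    refine this.congr ?_
    exact Eventually.of_forall fun t => mul_comm _ _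
  have hprod : Integrable (fun z : ℝ × E n => (z.1 ^ (a - 1) * Real.exp (-z.1)) *
      (g z.2 * Real.exp (-(z.1 * ‖z.2‖ ^ 2)))) ((volume.restrict (Ioi 0)).prod volume) := by
    have h1 : Integrable (fun z : ℝ × E n => (z.1 ^ (a - 1) * Real.exp (-z.1)) * g z.2)
      ((volume.restrict (Ioi 0)).prod volume) := hti.mul_prod hgi
    refine h1.mono ?_ ?_
    · have m1 : Measurable (fun z : ℝ × E n => z.1 ^ (a - 1)) := by fun_prop
      have m2 : Measurable (fun z : ℝ × E n => Real.exp (-z.1)) := by fun_prop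
      have m3 : Measurable (fun z : ℝ × E n => g z.2) := hg.measurable.comp measurable_snd
      have m4 : Measurable (fun z : ℝ × E n => Real.exp (-(z.1 * ‖z.2‖ ^ 2))) := by fun_prop
      exact ((m1.mul m2).mul (m3.mul m4)).aestronglyMeasurable
    · have : ∀ᵐ z : ℝ × E n ∂((volume.restrict (Ioi 0)).prod volume), 0 < z.1 := by
        have h2 : ∀ᵐ t ∂(volume.restrict (Ioi (0 : ℝ))), 0 < t :=
          ae_restrict_mem measurableSet_Ioi
        exact Measure.quasiMeasurePreserving_fst.ae h2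
      filter_upwards [this] with z hz
      rw [norm_mul, norm_mul (_ * _), norm_mul (g z.2)]
      refine mul_le_mul_of_nonneg_left ?_ (norm_nonneg _)
      refine mul_le_of_le_one_right (norm_nonneg _) ?_
      rw [Real.norm_of_nonneg (Real.exp_pos _).le, Real.exp_le_one_iff]
      have : 0 ≤ z.1 * ‖z.2‖ ^ 2 := by positivity
      linarith
  have := hprod.integral_prod_left
  refine this.congr (Eventually.of_forall fun t => ?_)
  dsimp only
  rw [integral_const_mul]

/-- The inequality with constant `-2α` for functions all of whose Gaussian means vanish. -/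
lemma nonradial {f : E n → ℝ} (hf : ContDiff ℝ 1 f) (hc : HasCompactSupport f) {α : ℝ}
    (hα : α < 0) (h0 : ∀ t : ℝ, 0 < t → ∫ x, f x * Real.exp (-(t * ‖x‖ ^ 2)) = 0) :
    -2 * α * ∫ x, rho x ^ (α - 1) * f x ^ 2 ≤ ∫ x, rho x ^ α * ‖fderiv ℝ f x‖ ^ 2 := by
  have hg1 : Continuous (fun x => f x ^ 2) := hf.continuous.pow 2
  have hg2 : Continuous (fun x => ‖fderiv ℝ f x‖ ^ 2) :=
    (hf.continuous_fderiv (by norm_num)).norm.pow 2
  have h1 := mix hg1 (hcs_sq hc) (a := 1 - α) (by linarith)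
  have h2 := mix hg2 (hcs_fd hc) (a := -α) (by linarith)
  have i1 := mix_int hg1 (hcs_sq hc) (a := 1 - α) (by linarith)
  have i2 := mix_int hg2 (hcs_fd hc) (a := -α) (by linarith)
  have h3 : ∫ t in Ioi (0 : ℝ), t ^ (1 - α - 1) * Real.exp (-t) *
      ∫ x, f x ^ 2 * Real.exp (-(t * ‖x‖ ^ 2)) ≤
      ∫ t in Ioi (0 : ℝ), 2⁻¹ * (t ^ (-α - 1) * Real.exp (-t) *
        ∫ x, ‖fderiv ℝ f x‖ ^ 2 * Real.exp (-(t * ‖x‖ ^ 2))) := by
    refine setIntegral_mono_on i1 (i2.const_mul _) measurableSet_Ioi fun t ht => ?_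
    have ht : 0 < t := ht
    have h4 := gauss_poincare hf hc ht (h0 t ht)
    have e1 : t ^ (1 - α - 1) = t ^ (-α - 1) * t := by
      rw [← Real.rpow_add_one ht.ne']; congr 1; ring
    rw [e1]
    calc t ^ (-α - 1) * t * Real.exp (-t) * ∫ x, f x ^ 2 * Real.exp (-(t * ‖x‖ ^ 2))
        ≤ t ^ (-α - 1) * t * Real.exp (-t) * ((2 * t)⁻¹ *
          ∫ x, ‖fderiv ℝ f x‖ ^ 2 * Real.exp (-(t * ‖x‖ ^ 2))) :=
          mul_le_mul_of_nonneg_left h4 (by positivity)
      _ = _ := by field_simp
  rw [h1, integral_const_mul, h2] at h3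
  have e2 : Real.Gamma (1 - α) = -α * Real.Gamma (-α) := by
    rw [← Real.Gamma_add_one (by linarith)]; congr 1; ring
  have hΓ : 0 < Real.Gamma (-α) := Real.Gamma_pos_of_pos (by linarith)
  have e3 : -(1 - α) = α - 1 := by ring
  rw [e2, e3, neg_neg] at h3
  refine le_of_mul_le_mul_left ?_ hΓ
  linarith

end Pool.Agent.TH337.HW
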