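import Mathlib

set_option autoImplicit false

open MeasureTheory Set Filter Topology

namespace Pool.Agent.TH337.HW

/-- one-dimensional weights -/
noncomputable def wt (m : ℕ) (a : ℝ) (r : ℝ) : ℝ := (1 + r ^ 2) ^ a * r ^ m

lemma one_add_pos (r : ℝ) : 0 < 1 + r ^ 2 := by positivity

lemma rp_cont (a : ℝ) : Continuous (fun r : ℝ => (1 + r ^ 2) ^ a) :=
  Continuous.rpow_const (by fun_prop) (fun r => Or.inl (one_add_pos r).ne')

lemma wt_cont (m : ℕ) (a : ℝ) : Continuous (wt m a) := (rp_cont a).mul (continuous_pow m)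

lemma wt_nonneg (m : ℕ) (a : ℝ) {r : ℝ} (hr : 0 ≤ r) : 0 ≤ wt m a r :=
  mul_nonneg (Real.rpow_nonneg (one_add_pos r).le _) (pow_nonneg hr _)

lemma rp_deriv (a r : ℝ) :
    HasDerivAt (fun r : ℝ => (1 + r ^ 2) ^ a) (2 * r * a * (1 + r ^ 2) ^ (a - 1)) r := by
  have h1 : HasDerivAt (fun r : ℝ => 1 + r ^ 2) (2 * r) r := by
    simpa using (hasDerivAt_pow 2 r).const_add 1
  exact h1.rpow_const (Or.inl (one_add_pos r).ne')

/-- The one-dimensional inequality with a vanishing mean, by duality. -/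
theorem radial_ineq (m : ℕ) (α s q Λ : ℝ) (hs : 0 ≤ s) (hsα : 0 ≤ s + α)
    (hq : q = (m + 1 : ℝ) - 2 * s) (hΛ : Λ = -2 * q * (1 - s - α)) (hΛ0 : 0 ≤ Λ)
    (φ : ℝ → ℝ) (hφ : ContDiff ℝ 1 φ) (R : ℝ) (hR : 0 < R)
    (h0 : ∫ r in (0 : ℝ)..R, wt m (α - 1) r * φ r = 0) :
    Λ * ∫ r in (0 : ℝ)..R, wt m (α - 1) r * φ r ^ 2 ≤ ∫ r in (0 : ℝ)..R, wt m α r * deriv φ r ^ 2 := by
  set w := wt m (α - 1) with hw
  set p := wt m α with hp
  set h : ℝ → ℝ := fun r => ∫ t in (0 : ℝ)..r, w t * φ t with hh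
  have hφc : Continuous φ := hφ.continuous
  have hdc : Continuous (deriv φ) := hφ.continuous_deriv (by norm_num)
  have hwc : Continuous w := wt_cont m _
  have hpc : Continuous p := wt_cont m _
  have hwφ : Continuous (fun t => w t * φ t) := hwc.mul hφc
  have hhd : ∀ r, HasDerivAt h (w r * φ r) r := fun r =>
    intervalIntegral.integral_hasDerivAt_right (hwφ.intervalIntegrable _ _)
      (hwφ.stronglyMeasurableAtFilter _ _) hwφ.continuousAt
  have hφd : ∀ r, HasDerivAt φ (deriv φ r) r := fun r =>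
    (hφ.differentiable (by norm_num) r).hasDerivAt
  set V : ℝ → ℝ := fun r => (1 + r ^ 2) ^ (-α) * ((m + 1 : ℝ) + q * r ^ 2) / r ^ (m + 1) with hV
  set V' : ℝ → ℝ := fun r => ((2 * r * (-α) * (1 + r ^ 2) ^ (-α - 1) * ((m + 1 : ℝ) + q * r ^ 2)
      + (1 + r ^ 2) ^ (-α) * (2 * q * r)) * r ^ (m + 1)
      - (1 + r ^ 2) ^ (-α) * ((m + 1 : ℝ) + q * r ^ 2) * ((m + 1 : ℝ) * r ^ m))
      / (r ^ (m + 1)) ^ 2 with hV'
  have hVd : ∀ r, 0 < r → HasDerivAt V (V' r) r := by
    intro r hr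
    have h1 := rp_deriv (-α) r
    have h2 : HasDerivAt (fun r : ℝ => (m + 1 : ℝ) + q * r ^ 2) (2 * q * r) r := by
      have := ((hasDerivAt_pow 2 r).const_mul q).const_add (m + 1 : ℝ)
      simp only [Nat.cast_ofNat, Nat.add_one_sub_one, pow_one] at this
      refine this.congr_deriv ?_
      ring
    have h3 : HasDerivAt (fun r : ℝ => r ^ (m + 1)) ((m + 1 : ℝ) * r ^ m) r := by
      simpa using hasDerivAt_pow (m + 1) r
    exact (h1.mul h2).div h3 (pow_pos hr _).ne'
  set G : ℝ → ℝ := fun r => Λ * (V r * h r ^ 2 - 2 * h r * φ r) with hG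
  set G' : ℝ → ℝ := fun r => Λ * ((V' r * h r ^ 2 + V r * (2 * h r * (w r * φ r)))
      - (2 * (w r * φ r) * φ r + 2 * h r * deriv φ r)) with hG'
  have hGd : ∀ r, 0 < r → HasDerivAt G (G' r) r := by
    intro r hr
    have h1 := (hVd r hr).mul ((hhd r).pow 2)
    have h2 := ((hhd r).const_mul 2).mul (hφd r)
    have h3 := (h1.sub h2).const_mul Λ
    refine h3.congr_deriv ?_
    simp only [hG']
    simp
  -- pointwise inequality
  have hpt : ∀ r, 0 < r → G' r ≤ p r * deriv φ r ^ 2 - Λ * (w r * φ r ^ 2) := by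
    intro r hr
    have hρ := one_add_pos r
    have hA : 0 < (1 + r ^ 2) ^ (-α) := Real.rpow_pos_of_pos hρ _
    set A := (1 + r ^ 2) ^ (-α) with hAdef
    have hpA : p r = r ^ m / A := by
      rw [hp, hAdef]; unfold wt
      rw [Real.rpow_neg hρ.le]
      field_simp
    have hwA : w r = r ^ m / (A * (1 + r ^ 2)) := by
      rw [hw, hAdef]; unfold wt
      rw [Real.rpow_neg hρ.le, Real.rpow_sub_one hρ.ne']
      field_simp
    have hA1 : (1 + r ^ 2) ^ (-α - 1) = A / (1 + r ^ 2) := by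
      rw [Real.rpow_sub_one hρ.ne']
    have hrm : 0 < r ^ m := pow_pos hr m
    have hpp : 0 < p r := by rw [hpA]; positivity
    have hww : 0 < w r := by rw [hwA]; positivity
    -- the key identity
    have hkey : -(V' r) - w r * V r ^ 2 - Λ / p r = 4 * s * (s + α) / (p r * (1 + r ^ 2)) := by
      rw [hpA, hwA]
      simp only [hV, hV', hA1]
      rw [← hAdef, pow_succ]
      rw [hΛ, hq]
      field_simp
      ring
    have e1 : p r * deriv φ r ^ 2 - Λ * (w r * φ r ^ 2) - G' r =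
        p r * (deriv φ r + Λ * h r / p r) ^ 2 + Λ * w r * (φ r - V r * h r) ^ 2
          + Λ * h r ^ 2 * (-(V' r) - w r * V r ^ 2 - Λ / p r) := by
      simp only [hG']
      field_simp
      ring
    have e2 : 0 ≤ 4 * s * (s + α) / (p r * (1 + r ^ 2)) := by positivity
    rw [hkey] at e1
    have e3 : 0 ≤ p r * (deriv φ r + Λ * h r / p r) ^ 2 := by positivity
    have e4 : 0 ≤ Λ * w r * (φ r - V r * h r) ^ 2 := by positivity
    have e5 : 0 ≤ Λ * h r ^ 2 * (4 * s * (s + α) / (p r * (1 + r ^ 2))) := by positivity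
    linarith
  have hF : Continuous (fun r => p r * deriv φ r ^ 2 - Λ * (w r * φ r ^ 2)) := by fun_prop
  have hhc : Continuous h := continuous_iff_continuousAt.2 fun r => (hhd r).continuousAt
  -- integrate over [ε, R]
  have hint : ∀ ε, 0 < ε → ε < R → -(G ε) ≤ ∫ r in ε..R, (p r * deriv φ r ^ 2 - Λ * (w r * φ r ^ 2)) := by
    intro ε hε hεR
    have hVc : ContinuousOn V (Icc ε R) := fun r hr =>
      (hVd r (hε.trans_le hr.1)).continuousAt.continuousWithinAt
    have hV'c : ContinuousOn V' (Icc ε R) := by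
      simp only [hV']
      refine ContinuousOn.div ?_ (by fun_prop) fun r hr => ?_
      · have c1 := rp_cont (-α)
        have c2 := rp_cont (-α - 1)
        exact Continuous.continuousOn (by fun_prop)
      · have : 0 < r := hε.trans_le hr.1
        positivity
    have hG'c : ContinuousOn G' (Icc ε R) := by
      simp only [hG']
      fun_prop
    have hi : IntervalIntegrable G' volume ε R := by
      refine ContinuousOn.intervalIntegrable ?_
      rwa [uIcc_of_le hεR.le]
    have hFTC : ∫ r in ε..R, G' r = G R - G ε := by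
      refine intervalIntegral.integral_eq_sub_of_hasDerivAt (fun r hr => ?_) hi
      rw [uIcc_of_le hεR.le] at hr
      exact hGd r (hε.trans_le hr.1)
    have hGR : G R = 0 := by
      simp only [hG]
      have : h R = 0 := h0
      rw [this]; ring
    have := intervalIntegral.integral_mono_on hεR.le hi (hF.intervalIntegrable _ _)
      (fun r hr => hpt r (hε.trans_le hr.1))
    rw [hFTC, hGR] at this
    linarith
  -- limit ε → 0
  have hlim1 : Tendsto (fun ε => ∫ r in ε..R, (p r * deriv φ r ^ 2 - Λ * (w r * φ r ^ 2))) (𝓝[>] 0)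
      (𝓝 (∫ r in (0 : ℝ)..R, (p r * deriv φ r ^ 2 - Λ * (w r * φ r ^ 2)))) := by
    have hc : Continuous (fun ε : ℝ => ∫ r in ε..R, (p r * deriv φ r ^ 2 - Λ * (w r * φ r ^ 2))) := by
      have := intervalIntegral.continuous_primitive (μ := volume)
        (fun a b => hF.intervalIntegrable a b) R
      have e : (fun ε : ℝ => ∫ r in ε..R, (p r * deriv φ r ^ 2 - Λ * (w r * φ r ^ 2))) =
          fun ε => -(∫ r in R..ε, (p r * deriv φ r ^ 2 - Λ * (w r * φ r ^ 2))) := by
        ext ε; exact intervalIntegral.integral_symm _ _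
      rw [e]
      exact this.neg
    exact (hc.tendsto 0).mono_left nhdsWithin_le_nhds
  have hlim2 : Tendsto G (𝓝[>] 0) (𝓝 0) := by
    obtain ⟨M, hM⟩ := (isCompact_Icc (a := (0 : ℝ)) (b := R)).exists_bound_of_continuousOn
      (f := fun r => (1 + r ^ 2) ^ (α - 1) * φ r) ((rp_cont (α - 1)).mul hφc).continuousOn
    have hM0 : 0 ≤ M := (norm_nonneg _).trans (hM 0 ⟨le_rfl, hR.le⟩)
    have hhb : ∀ ε, 0 < ε → ε < R → |h ε| ≤ M * ε ^ (m + 1) := by
      intro ε hε hεR
      have : ‖∫ t in (0 : ℝ)..ε, w t * φ t‖ ≤ M * ε ^ m * |ε - 0| := by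
        refine intervalIntegral.norm_integral_le_of_norm_le_const fun t ht => ?_
        rw [uIoc_of_le hε.le] at ht
        have h1 := hM t ⟨ht.1.le, ht.2.trans hεR.le⟩
        have e : w t * φ t = ((1 + t ^ 2) ^ (α - 1) * φ t) * t ^ m := by
          rw [hw]; unfold wt; ring
        rw [e, norm_mul]
        refine mul_le_mul h1 ?_ (norm_nonneg _) hM0
        rw [Real.norm_of_nonneg (pow_nonneg ht.1.le _)]
        exact pow_le_pow_left₀ ht.1.le ht.2 _
      rw [sub_zero, abs_of_pos hε, mul_assoc, ← pow_succ] at this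
      exact this
    have hlimh : Tendsto h (𝓝[>] 0) (𝓝 0) := by
      have : h 0 = 0 := by simp [hh]
      have h1 := hhc.tendsto 0
      rw [this] at h1
      exact h1.mono_left nhdsWithin_le_nhds
    have hlimV : Tendsto (fun ε => V ε * h ε ^ 2) (𝓝[>] 0) (𝓝 0) := by
      rw [tendsto_zero_iff_norm_tendsto_zero]
      have hb : Tendsto (fun ε : ℝ => (1 + ε ^ 2) ^ (-α) * |(m + 1 : ℝ) + q * ε ^ 2| * M ^ 2 * ε ^ (m + 1))
          (𝓝[>] 0) (𝓝 0) := by
        have c1 := rp_cont (-α)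
        have hc : Continuous (fun ε : ℝ => (1 + ε ^ 2) ^ (-α) * |(m + 1 : ℝ) + q * ε ^ 2| * M ^ 2 * ε ^ (m + 1)) := by
          fun_prop
        have := hc.tendsto 0
        simp only [ne_eq, Nat.add_eq_zero_iff, one_ne_zero, and_false, not_false_eq_true, zero_pow,
          mul_zero] at this
        exact this.mono_left nhdsWithin_le_nhds
      refine squeeze_zero' (Eventually.of_forall fun _ => norm_nonneg _) ?_ hb
      filter_upwards [Ioo_mem_nhdsGT hR] with ε hε
      have h1 := hhb ε hε.1 hε.2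
      have h2 : h ε ^ 2 ≤ M ^ 2 * (ε ^ (m + 1) * ε ^ (m + 1)) := by
        rw [← sq_abs]
        calc |h ε| ^ 2 ≤ (M * ε ^ (m + 1)) ^ 2 := pow_le_pow_left₀ (abs_nonneg _) h1 2
          _ = _ := by ring
      have hep : 0 < ε ^ (m + 1) := pow_pos hε.1 _
      have hA : 0 < (1 + ε ^ 2) ^ (-α) := Real.rpow_pos_of_pos (one_add_pos ε) _
      rw [norm_mul, Real.norm_eq_abs, Real.norm_eq_abs]
      simp only [hV]
      rw [abs_div, abs_mul, abs_of_pos hA, abs_of_pos hep, abs_of_nonneg (sq_nonneg (h ε))]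
      calc (1 + ε ^ 2) ^ (-α) * |(m + 1 : ℝ) + q * ε ^ 2| / ε ^ (m + 1) * h ε ^ 2
          ≤ (1 + ε ^ 2) ^ (-α) * |(m + 1 : ℝ) + q * ε ^ 2| / ε ^ (m + 1)
            * (M ^ 2 * (ε ^ (m + 1) * ε ^ (m + 1))) := mul_le_mul_of_nonneg_left h2 (by positivity)
        _ = _ := by field_simp
    have hlimφ : Tendsto (fun ε => 2 * h ε * φ ε) (𝓝[>] 0) (𝓝 (2 * 0 * φ 0)) :=
      (hlimh.const_mul 2).mul ((hφc.tendsto 0).mono_left nhdsWithin_le_nhds)
    have := (hlimV.sub hlimφ).const_mul Λ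
    simpa using this
  have hfin : 0 ≤ ∫ r in (0 : ℝ)..R, (p r * deriv φ r ^ 2 - Λ * (w r * φ r ^ 2)) := by
    have h1 : Tendsto (fun ε => -(G ε)) (𝓝[>] 0) (𝓝 0) := by simpa using hlim2.neg
    refine le_of_tendsto_of_tendsto h1 hlim1 ?_
    filter_upwards [Ioo_mem_nhdsGT hR] with ε hε
    exact hint ε hε.1 hε.2
  have hc1 : Continuous (fun r => p r * deriv φ r ^ 2) := by fun_prop
  have hc2 : Continuous (fun r => w r * φ r ^ 2) := by fun_prop
  rw [intervalIntegral.integral_sub (hc1.intervalIntegrable _ _)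
    ((hc2.intervalIntegrable _ _).const_mul _), intervalIntegral.integral_const_mul] at hfin
  linarith

end Pool.Agent.TH337.HW
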