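import Pool.Agent.TH337.HW.Avg
import Pool.Agent.TH337.HW.Radial
import Pool.Agent.TH337.HW.Mix

set_option autoImplicit false
set_option linter.unusedSectionVars false

open MeasureTheory Set Filter Topology
open scoped ContDiff RealInnerProductSpace Gradient
open Pool.Agent.Helper28

attribute [local instance] compactSpace_UG secondCountable_UG measUG borelUG

namespace Pool.Agent.TH337.HW

/-- polar coordinates for radial functions -/
lemma polar {m : ℕ} {R : ℝ} (hR : 0 < R) (F : ℝ → ℝ) (hF : ∀ r, R < r → F r = 0) :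
    ∫ x : E (m + 1), F ‖x‖ = ((m + 1 : ℕ) : ℝ) * (volume : Measure (E (m + 1))).real
      (Metric.ball 0 1) * ∫ r in (0 : ℝ)..R, r ^ m * F r := by
  have h := integral_fun_norm_addHaar (volume : Measure (E (m + 1))) F
  rw [h]
  have hd : Module.finrank ℝ (E (m + 1)) = m + 1 := by simp
  rw [hd, intervalIntegral.integral_of_le hR.le]
  simp only [Nat.add_sub_cancel, smul_eq_mul, nsmul_eq_mul]
  rw [mul_assoc]
  congr 2
  refine setIntegral_eq_of_subset_of_forall_sdiff_eq_zero measurableSet_Ioi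
    (fun r hr => hr.1) fun r hr => ?_
  have : R < r := by
    by_contra hcon
    push Not at hcon
    exact hr.2 ⟨hr.1, hcon⟩
  rw [hF r this, mul_zero]

lemma ball_pos (m : ℕ) : 0 < (volume : Measure (E (m + 1))).real (Metric.ball 0 1) := by
  rw [Measure.real]
  exact ENNReal.toReal_pos (Metric.measure_ball_pos _ _ one_pos).ne' measure_ball_lt_top.ne

/-- The inequality for radial functions of mean zero. -/
lemma radial_part {m : ℕ} {α s q Λ : ℝ} (hs : 0 ≤ s) (hsα : 0 ≤ s + α)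
    (hq : q = (m + 1 : ℝ) - 2 * s) (hΛ : Λ = -2 * q * (1 - s - α)) (hΛ0 : 0 ≤ Λ)
    {a : E (m + 1) → ℝ} (ha : ContDiff ℝ 1 a) (hc : HasCompactSupport a)
    (hinv : ∀ Q x, a (act Q x) = a x) (h0 : ∫ x, rho x ^ (α - 1) * a x = 0) :
    Λ * ∫ x, rho x ^ (α - 1) * a x ^ 2 ≤ ∫ x, rho x ^ α * ‖fderiv ℝ a x‖ ^ 2 := by
  set e : E (m + 1) := EuclideanSpace.single 0 1 with he
  have hen : ‖e‖ = 1 := by simp [he]
  set φ : ℝ → ℝ := fun r => a (r • e) with hφ
  have hφd : ContDiff ℝ 1 φ := ha.comp (contDiff_id.smul contDiff_const)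
  have hφ' : ∀ r, deriv φ r = fderiv ℝ a (r • e) e := by
    intro r
    have h1 : HasDerivAt (fun r : ℝ => r • e) ((1 : ℝ) • e) r := (hasDerivAt_id r).smul_const e
    have h2 : HasFDerivAt a (fderiv ℝ a (r • e)) (r • e) :=
      (ha.differentiable (by norm_num) _).hasFDerivAt
    have := (h2.comp_hasDerivAt r h1).deriv
    rw [one_smul] at this
    exact this
  have hfr : Module.finrank ℝ (E (m + 1)) = m + 1 := by simp
  have hact : ∀ x : E (m + 1), ∃ Q : unitary (E (m + 1) →L[ℝ] E (m + 1)), act Q x = ‖x‖ • e := by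
    intro x
    refine exists_act hfr ?_
    rw [norm_smul, hen, mul_one, norm_norm]
  have hax : ∀ x, a x = φ ‖x‖ := by
    intro x
    obtain ⟨Q, hQ⟩ := hact x
    rw [hφ]; dsimp only
    rw [← hQ, hinv]
  have hdx : ∀ x, deriv φ ‖x‖ ^ 2 ≤ ‖fderiv ℝ a x‖ ^ 2 := by
    intro x
    obtain ⟨Q, hQ⟩ := hact x
    rw [hφ', ← sq_abs, ← norm_fderiv_inv ha hinv Q x, hQ]
    refine pow_le_pow_left₀ (abs_nonneg _) ?_ 2
    have := (fderiv ℝ a (‖x‖ • e)).le_opNorm e
    rwa [hen, mul_one, Real.norm_eq_abs] at this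
  obtain ⟨R0, hR0⟩ := hc.isCompact.isBounded.subset_closedBall (0 : E (m + 1))
  set R : ℝ := max R0 1 with hRdef
  have hR : 0 < R := lt_of_lt_of_le one_pos (le_max_right _ _)
  have hz : ∀ r, R < r → φ r = 0 := by
    intro r hr
    change a (r • e) = 0
    refine image_eq_zero_of_notMem_tsupport fun h => ?_
    have h1 := hR0 h
    rw [mem_closedBall_zero_iff, norm_smul, hen, mul_one, Real.norm_of_nonneg (hR.trans hr).le] at h1
    have := le_max_left R0 1
    rw [← hRdef] at this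
    linarith
  have hz' : ∀ r, R < r → deriv φ r = 0 := by
    intro r hr
    rw [hφ']
    have : fderiv ℝ a (r • e) = 0 := by
      refine image_eq_zero_of_notMem_tsupport fun h => ?_
      have h1 := hR0 (tsupport_fderiv_subset ℝ h)
      rw [mem_closedBall_zero_iff, norm_smul, hen, mul_one, Real.norm_of_nonneg (hR.trans hr).le] at h1
      have := le_max_left R0 1
      rw [← hRdef] at this
      linarith
    rw [this]; rfl
  set c : ℝ := ((m + 1 : ℕ) : ℝ) * (volume : Measure (E (m + 1))).real (Metric.ball 0 1) with hcdef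
  have hc0 : 0 < c := mul_pos (by positivity) (ball_pos m)
  have hw : ∀ b r, r ^ m * (1 + r ^ 2) ^ b = wt m b r := fun b r => by unfold wt; ring
  have e0 : ∫ x : E (m + 1), rho x ^ (α - 1) * a x = c * ∫ r in (0 : ℝ)..R, wt m (α - 1) r * φ r := by
    have := polar (m := m) hR (fun r => (1 + r ^ 2) ^ (α - 1) * φ r)
      (fun r hr => by rw [hz r hr, mul_zero])
    rw [← hcdef] at this
    simp_rw [hax]
    unfold rho
    rw [this]
    congr 2; ext r; rw [← hw]; ring
  have e1 : ∫ x : E (m + 1), rho x ^ (α - 1) * a x ^ 2 =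
      c * ∫ r in (0 : ℝ)..R, wt m (α - 1) r * φ r ^ 2 := by
    have := polar (m := m) hR (fun r => (1 + r ^ 2) ^ (α - 1) * φ r ^ 2)
      (fun r hr => by rw [hz r hr]; ring)
    rw [← hcdef] at this
    simp_rw [hax]
    unfold rho
    rw [this]
    congr 2; ext r; rw [← hw]; ring
  have e2 : ∫ x : E (m + 1), rho x ^ α * deriv φ ‖x‖ ^ 2 =
      c * ∫ r in (0 : ℝ)..R, wt m α r * deriv φ r ^ 2 := by
    have := polar (m := m) hR (fun r => (1 + r ^ 2) ^ α * deriv φ r ^ 2)
      (fun r hr => by rw [hz' r hr]; ring)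
    rw [← hcdef] at this
    unfold rho
    rw [this]
    congr 2; ext r; rw [← hw]; ring
  have e3 : ∫ x : E (m + 1), rho x ^ α * deriv φ ‖x‖ ^ 2 ≤ ∫ x, rho x ^ α * ‖fderiv ℝ a x‖ ^ 2 := by
    refine integral_mono_of_nonneg (Eventually.of_forall fun x =>
      mul_nonneg (Real.rpow_nonneg (rho_pos x).le _) (sq_nonneg _)) (int_en ha hc α)
      (Eventually.of_forall fun x => ?_)
    exact mul_le_mul_of_nonneg_left (hdx x) (Real.rpow_nonneg (rho_pos x).le _)
  have h0' : ∫ r in (0 : ℝ)..R, wt m (α - 1) r * φ r = 0 := by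
    rw [e0] at h0
    exact (mul_eq_zero.1 h0).resolve_left hc0.ne'
  have h1 := radial_ineq m α s q Λ hs hsα hq hΛ hΛ0 φ hφd R hR h0'
  rw [e1]
  refine le_trans ?_ e3
  rw [e2]
  calc Λ * (c * ∫ r in (0 : ℝ)..R, wt m (α - 1) r * φ r ^ 2)
      = c * (Λ * ∫ r in (0 : ℝ)..R, wt m (α - 1) r * φ r ^ 2) := by ring
    _ ≤ _ := mul_le_mul_of_nonneg_left h1 hc0.le

/-- The constrained lower bound. -/
lemma lowerB {m : ℕ} {α s q Λ Λ0 : ℝ} (hα : α < 0) (hs : 0 ≤ s) (hsα : 0 ≤ s + α)
    (hq : q = (m + 1 : ℝ) - 2 * s) (hΛ : Λ = -2 * q * (1 - s - α)) (hΛ0 : 0 ≤ Λ)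
    (hl1 : Λ0 ≤ Λ) (hl2 : Λ0 ≤ -2 * α)
    {u : E (m + 1) → ℝ} (hu : ContDiff ℝ 1 u) (hc : HasCompactSupport u)
    (h0 : ∫ x, rho x ^ (α - 1) * u x = 0) :
    Λ0 * ∫ x, rho x ^ (α - 1) * u x ^ 2 ≤ ∫ x, rho x ^ α * ‖fderiv ℝ u x‖ ^ 2 := by
  set a := avg u with ha
  have hac : ContDiff ℝ 1 a := avg_contDiff hu hc
  have has : HasCompactSupport a := avg_hcs hc
  have hinv : ∀ Q x, a (act Q x) = a x := avg_inv u
  have hρ : ∀ (Q : unitary (E (m + 1) →L[ℝ] E (m + 1))) (x : E (m + 1)), rho (act Q x) = rho x :=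
    fun Q x => by unfold rho; rw [act_norm]
  have ha0 : ∫ x, rho x ^ (α - 1) * a x = 0 := by
    rw [← h0]
    exact avg_pair (rpow_cont _) (fun Q x => by rw [hρ]) hu.continuous hc
  have hrad := radial_part hs hsα hq hΛ hΛ0 hac has hinv ha0
  set v : E (m + 1) → ℝ := fun x => u x - a x with hv
  have hvc : ContDiff ℝ 1 v := hu.sub hac
  have hvs : HasCompactSupport v := hc.sub has
  have hv0 : ∀ t : ℝ, 0 < t → ∫ x, v x * Real.exp (-(t * ‖x‖ ^ 2)) = 0 := by
    intro t _
    have hce : Continuous (fun x : E (m + 1) => Real.exp (-(t * ‖x‖ ^ 2))) := by fun_prop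
    have h1 := avg_pair (h := fun x : E (m + 1) => Real.exp (-(t * ‖x‖ ^ 2))) hce
      (fun Q x => by rw [act_norm]) hu.continuous hc
    have i1 : Integrable (fun x => Real.exp (-(t * ‖x‖ ^ 2)) * u x) :=
      (hce.mul hu.continuous).integrable_of_hasCompactSupport hc.mul_left
    have i2 : Integrable (fun x => Real.exp (-(t * ‖x‖ ^ 2)) * a x) :=
      (hce.mul hac.continuous).integrable_of_hasCompactSupport has.mul_left
    have e : ∀ x, v x * Real.exp (-(t * ‖x‖ ^ 2)) =
        Real.exp (-(t * ‖x‖ ^ 2)) * u x - Real.exp (-(t * ‖x‖ ^ 2)) * a x := by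
      intro x; simp only [hv]; ring
    simp_rw [e]
    rw [integral_sub i1 i2, h1, sub_self]
  have hnon := nonradial hvc hvs hα hv0
  -- decomposition of the mass
  have hB : ∫ x, rho x ^ (α - 1) * v x ^ 2 =
      (∫ x, rho x ^ (α - 1) * u x ^ 2) - ∫ x, rho x ^ (α - 1) * a x ^ 2 := by
    have h1 := avg_pair (h := fun x : E (m + 1) => rho x ^ (α - 1) * a x)
      ((rpow_cont _).mul hac.continuous) (fun Q x => by rw [hρ, hinv]) hu.continuous hc
    have i1 := int_sq hu hc (α - 1)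
    have i2 := int_sq hac has (α - 1)
    have i3 : Integrable (fun x => rho x ^ (α - 1) * a x * u x) :=
      (((rpow_cont _).mul hac.continuous).mul hu.continuous).integrable_of_hasCompactSupport
        hc.mul_left
    have e : ∀ x, rho x ^ (α - 1) * v x ^ 2 = rho x ^ (α - 1) * u x ^ 2
        - 2 * (rho x ^ (α - 1) * a x * u x) + rho x ^ (α - 1) * a x ^ 2 := by
      intro x; simp only [hv]; ring
    simp_rw [e]
    have i12 : Integrable (fun x => rho x ^ (α - 1) * u x ^ 2
        - 2 * (rho x ^ (α - 1) * a x * u x)) := i1.sub (i3.const_mul _)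
    rw [integral_add i12 i2, integral_sub i1 (i3.const_mul _), integral_const_mul, ← h1]
    have e2 : ∀ x, rho x ^ (α - 1) * a x * avg u x = rho x ^ (α - 1) * a x ^ 2 := by
      intro x; rw [← ha]; ring
    simp_rw [e2]
    ring
  -- decomposition of the energy
  have hE : ∫ x, rho x ^ α * ‖fderiv ℝ v x‖ ^ 2 =
      (∫ x, rho x ^ α * ‖fderiv ℝ u x‖ ^ 2) - ∫ x, rho x ^ α * ‖fderiv ℝ a x‖ ^ 2 := by
    have h1 := grad_pair (h := fun x : E (m + 1) => rho x ^ α) (rpow_cont _)
      (fun Q x => by rw [hρ]) hu hc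
    have i1 := int_en hu hc α
    have i2 := int_en hac has α
    have i3 : Integrable (fun x => rho x ^ α * fderiv ℝ u x (gradient (avg u) x)) := by
      refine ((rpow_cont _).mul ((hu.continuous_fderiv (by norm_num)).clm_apply
        (gradient_cont hac))).integrable_of_hasCompactSupport ?_
      refine HasCompactSupport.mul_left ?_
      refine HasCompactSupport.of_support_subset_isCompact (hc.fderiv (𝕜 := ℝ)) ?_
      intro x hx
      by_contra hcon
      refine hx ?_
      have : fderiv ℝ u x = 0 := image_eq_zero_of_notMem_tsupport hcon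
      simp [this]
    have e : ∀ x, rho x ^ α * ‖fderiv ℝ v x‖ ^ 2 = rho x ^ α * ‖fderiv ℝ u x‖ ^ 2
        - 2 * (rho x ^ α * fderiv ℝ u x (gradient (avg u) x)) + rho x ^ α * ‖fderiv ℝ a x‖ ^ 2 := by
      intro x
      have d1 : fderiv ℝ v x = fderiv ℝ u x - fderiv ℝ a x :=
        fderiv_fun_sub (hu.differentiable (by norm_num) x) (hac.differentiable (by norm_num) x)
      have d2 : gradient v x = gradient u x - gradient a x := by
        unfold gradient; rw [d1, map_sub]
      have d3 : fderiv ℝ u x (gradient a x) = ⟪gradient u x, gradient a x⟫ := by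
        conv_lhs => rw [← (InnerProductSpace.toDual ℝ (E (m + 1))).apply_symm_apply (fderiv ℝ u x)]
        rfl
      rw [← ha, ← norm_gradient v, ← norm_gradient u, ← norm_gradient a, d2, d3, norm_sub_sq_real]
      ring
    simp_rw [e]
    have i12 : Integrable (fun x => rho x ^ α * ‖fderiv ℝ u x‖ ^ 2
        - 2 * (rho x ^ α * fderiv ℝ u x (gradient (avg u) x))) := i1.sub (i3.const_mul _)
    rw [integral_add i12 i2, integral_sub i1 (i3.const_mul _), integral_const_mul, h1]
    ring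
  rw [hB, hE] at hnon
  have hBv : 0 ≤ ∫ x, rho x ^ (α - 1) * v x ^ 2 := integral_nonneg fun x =>
    mul_nonneg (Real.rpow_nonneg (rho_pos x).le _) (sq_nonneg _)
  have hBa : 0 ≤ ∫ x, rho x ^ (α - 1) * a x ^ 2 := integral_nonneg fun x =>
    mul_nonneg (Real.rpow_nonneg (rho_pos x).le _) (sq_nonneg _)
  rw [hB] at hBv
  nlinarith [mul_le_mul_of_nonneg_right hl1 hBa, mul_le_mul_of_nonneg_right hl2 hBv]

end Pool.Agent.TH337.HW
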