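import Pool.Agent.TH337.HW.UpperB
import Pool.Agent.TH337.HW.LowerB

set_option autoImplicit false

open MeasureTheory Set Filter Topology
open scoped ContDiff RealInnerProductSpace Gradient

namespace Pool.Agent.TH337.HW

/-- Hypothesis for the unconstrained problem. -/
def HypA (n : ℕ) (α C : ℝ) : Prop := ∀ u : E n → ℝ, ContDiff ℝ ∞ u → HasCompactSupport u →
  C * ∫ x, rho x ^ (α - 1) * (u x) ^ 2 ≤ ∫ x, rho x ^ α * ‖fderiv ℝ u x‖ ^ 2

variable {n : ℕ}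

lemma upperA1 {α C : ℝ} (hn : 0 < (n : ℝ)) (hC : HypA n α C) : C ≤ (n + 2 * α - 2) ^ 2 / 4 := by
  set b0 : ℝ := -(n + 2 * α - 2) / 4 with hb0
  have key : ∀ ε : ℝ, 0 < ε → C ≤ 2 * n * (b0 - ε) ^ 2 / (n / 2 + 2 * ε) := by
    intro ε hε
    have h1 := upperA (n := n) (α := α) (b := b0 - ε) (C := C) (by rw [hb0]; linarith) hC
    have e : 1 - α - 2 * (b0 - ε) = n / 2 + 2 * ε := by rw [hb0]; ring
    rwa [e] at h1
  have ht : Tendsto (fun ε : ℝ => 2 * n * (b0 - ε) ^ 2 / (n / 2 + 2 * ε)) (𝓝[>] 0)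
      (𝓝 ((n + 2 * α - 2) ^ 2 / 4)) := by
    have h1 : ContinuousAt (fun ε : ℝ => 2 * n * (b0 - ε) ^ 2 / (n / 2 + 2 * ε)) 0 := by
      refine ContinuousAt.div (by fun_prop) (by fun_prop) ?_
      have : (0 : ℝ) < n / 2 + 2 * 0 := by linarith
      exact this.ne'
    have h2 : 2 * n * (b0 - 0) ^ 2 / (n / 2 + 2 * 0) = ((n : ℝ) + 2 * α - 2) ^ 2 / 4 := by
      rw [hb0]; field_simp; ring
    have h3 : Tendsto (fun ε : ℝ => 2 * n * (b0 - ε) ^ 2 / (n / 2 + 2 * ε)) (𝓝 0)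
      (𝓝 (2 * n * (b0 - 0) ^ 2 / (n / 2 + 2 * 0))) := h1
    rw [h2] at h3
    exact h3.mono_left nhdsWithin_le_nhds
  refine ge_of_tendsto ht ?_
  filter_upwards [self_mem_nhdsWithin] with ε hε
  exact key ε hε

lemma upperA2 {α C : ℝ} (hn : 0 < (n : ℝ)) (hα : 1 + (n : ℝ) / 2 ≤ α) (hC : HypA n α C) :
    C ≤ 2 * n * (α - 1) := by
  rcases hα.eq_or_lt with h | h
  · have h1 := upperA1 hn hC
    rw [← h] at h1 ⊢
    refine h1.trans (le_of_eq ?_)
    ring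
  · have h1 := upperA (n := n) (α := α) (b := 1 - α) (C := C) (by linarith) hC
    have e : 1 - α - 2 * (1 - α) = α - 1 := by ring
    rw [e] at h1
    refine h1.trans (le_of_eq ?_)
    have : α - 1 ≠ 0 := by linarith
    field_simp
    ring

/-- The unconstrained case. -/
lemma coreA {α : ℝ} (hn : 3 ≤ n) (hα : -((n : ℝ) - 2) / 2 < α) {Λ : ℝ}
    (hΛ : (α ≤ 1 + n / 2 ∧ Λ = (n + 2 * α - 2) ^ 2 / 4) ∨ (1 + n / 2 ≤ α ∧ Λ = 2 * n * (α - 1))) :
    HypA n α Λ ∧ ∀ C, HypA n α C → C ≤ Λ := by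
  have hn' : (3 : ℝ) ≤ n := by exact_mod_cast hn
  rcases hΛ with ⟨h1, rfl⟩ | ⟨h1, rfl⟩
  · refine ⟨fun u hu hc => ?_, fun C hC => upperA1 (by linarith) hC⟩
    have := lower (hu.of_le (by exact_mod_cast le_top)) hc α ((n + 2 * α - 2) / 4) (by linarith)
      (by linarith)
    refine le_trans (le_of_eq ?_) this
    ring
  · refine ⟨fun u hu hc => ?_, fun C hC => upperA2 (by linarith) h1 hC⟩
    have := lower (hu.of_le (by exact_mod_cast le_top)) hc α (α - 1) (by linarith) le_rfl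
    refine le_trans (le_of_eq ?_) this
    ring

/-- The constrained case. -/
lemma coreB {α : ℝ} (hn : 3 ≤ n) (hα : α < -((n : ℝ) - 2) / 2) {Λ : ℝ}
    (hΛ : (α ≤ -n ∧ Λ = -2 * α) ∨ (-n ≤ α ∧ α ≤ -(n + 2) / 2 ∧ Λ = -4 * α - 2 * n) ∨
      (-(n + 2) / 2 ≤ α ∧ Λ = (n + 2 * α - 2) ^ 2 / 4)) :
    Hyp n α Λ ∧ ∀ C, Hyp n α C → C ≤ Λ := by
  have hn' : (3 : ℝ) ≤ n := by exact_mod_cast hn
  obtain ⟨m, rfl⟩ : ∃ m, n = m + 1 := ⟨n - 1, by omega⟩
  have hcast : ((m + 1 : ℕ) : ℝ) = (m : ℝ) + 1 := by push_cast; ring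
  have hα0 : α < 0 := by linarith
  rcases hΛ with ⟨h1, rfl⟩ | ⟨h1, h2, rfl⟩ | ⟨h1, rfl⟩
  · refine ⟨fun u hu hc h0 => ?_, fun C hC => upperB3 (by linarith) (by linarith) hC⟩
    refine lowerB (m := m) (α := α) (s := -α) (q := (m + 1 : ℝ) + 2 * α)
      (Λ := -4 * α - 2 * (m + 1)) hα0 (by linarith) (by linarith) (by ring) (by ring) ?_ ?_ le_rfl
      (hu.of_le (by exact_mod_cast le_top)) hc h0
    · rw [hcast] at h1 hn'; linarith
    · rw [hcast] at h1 hn'; linarith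
  · refine ⟨fun u hu hc h0 => ?_, fun C hC => ?_⟩
    · refine lowerB (m := m) (α := α) (s := -α) (q := (m + 1 : ℝ) + 2 * α)
        (Λ := -4 * α - 2 * (m + 1)) hα0 (by linarith) (by linarith) (by ring) (by ring) ?_ ?_ ?_
        (hu.of_le (by exact_mod_cast le_top)) hc h0
      · rw [hcast] at h2 hn'; linarith
      · rw [hcast]
      · rw [hcast] at h1 ⊢; linarith
    · rcases h2.eq_or_lt with h | h
      · have h3 := upperB1 (by linarith) hα hC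
        refine h3.trans (le_of_eq ?_)
        rw [h]; ring
      · exact upperB2 (by linarith) h hC
  · refine ⟨fun u hu hc h0 => ?_, fun C hC => upperB1 (by linarith) hα hC⟩
    rw [hcast] at h1 hn' hα ⊢
    refine lowerB (m := m) (α := α) (s := ((m + 1 : ℝ) + 2 - 2 * α) / 4)
      (q := ((m + 1 : ℝ) - 2 + 2 * α) / 2)
      (Λ := ((m + 1 : ℝ) + 2 * α - 2) ^ 2 / 4) hα0 (by linarith) (by linarith) (by ring) (by ring)
      (by positivity) le_rfl ?_ (hu.of_le (by exact_mod_cast le_top)) hc h0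
    have e1 : 0 < -((m + 1 : ℝ) + 2 * α - 2) := by linarith
    have e2 : -((m + 1 : ℝ) + 2 * α - 2) ≤ 4 := by linarith
    nlinarith

end Pool.Agent.TH337.HW
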