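import Pool.Agent.TH337.HW.Lower

set_option autoImplicit false

open MeasureTheory Set Filter Topology
open scoped ContDiff RealInnerProductSpace Gradient

namespace Pool.Agent.TH337.HW

variable {n : ℕ}

/-- a fixed bump function -/
noncomputable def bump (n : ℕ) : ContDiffBump (0 : E n) := ⟨1, 2, one_pos, one_lt_two⟩

/-- the dilated bump functions -/
noncomputable def chi (n : ℕ) (k : ℕ) (x : E n) : ℝ := bump n (((k : ℝ) + 1)⁻¹ • x)

lemma kpos (k : ℕ) : (0 : ℝ) < (k : ℝ) + 1 := by positivity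

lemma chi_contDiff (k : ℕ) : ContDiff ℝ ∞ (chi n k) :=
  (bump n).contDiff.comp (contDiff_const_smul _)

lemma chi_hcs (k : ℕ) : HasCompactSupport (chi n k) :=
  (bump n).hasCompactSupport.comp_smul (inv_ne_zero (kpos k).ne')

lemma chi_nonneg (k : ℕ) (x : E n) : 0 ≤ chi n k x := (bump n).nonneg
lemma chi_le_one (k : ℕ) (x : E n) : chi n k x ≤ 1 := (bump n).le_one
lemma chi_even (k : ℕ) (x : E n) : chi n k (-x) = chi n k x := by
  unfold chi; rw [smul_neg, (bump n).neg]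

lemma chi_hasFDerivAt (k : ℕ) (x : E n) :
    HasFDerivAt (chi n k) (((k : ℝ) + 1)⁻¹ • fderiv ℝ (bump n) (((k : ℝ) + 1)⁻¹ • x)) x := by
  have h1 : HasFDerivAt (fun x : E n => ((k : ℝ) + 1)⁻¹ • x)
      (((k : ℝ) + 1)⁻¹ • ContinuousLinearMap.id ℝ (E n)) x :=
    (((k : ℝ) + 1)⁻¹ • ContinuousLinearMap.id ℝ (E n)).hasFDerivAt
  have h2 : HasFDerivAt (bump n) (fderiv ℝ (bump n) (((k : ℝ) + 1)⁻¹ • x)) (((k : ℝ) + 1)⁻¹ • x) :=
    (((bump n).contDiff (n := 1)).differentiable (by norm_num) _).hasFDerivAt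
  have := h2.comp x h1
  refine this.congr_fderiv ?_
  ext v; simp

lemma bump_bound (n : ℕ) : ∃ M : ℝ, 0 ≤ M ∧ ∀ x : E n, ‖fderiv ℝ (bump n) x‖ ≤ M := by
  have h1 : Continuous (fderiv ℝ (bump n)) := ((bump n).contDiff (n := 1)).continuous_fderiv (by norm_num)
  have h2 : HasCompactSupport (fderiv ℝ (bump n)) := (bump n).hasCompactSupport.fderiv (𝕜 := ℝ)
  obtain ⟨C, hC⟩ := h1.bounded_above_of_compact_support h2
  exact ⟨C, (norm_nonneg _).trans (hC 0), hC⟩

lemma bump_zero {x : E n} (hx : 2 < ‖x‖) : fderiv ℝ (bump n) x = 0 := by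
  have h1 : x ∉ tsupport (fderiv ℝ (bump n)) := by
    intro h
    have h2 := tsupport_fderiv_subset ℝ h
    rw [(bump n).tsupport_eq] at h2
    simp [bump] at h2
    linarith
  exact image_eq_zero_of_notMem_tsupport h1

lemma chi_fd_bound (n : ℕ) : ∃ M : ℝ, 0 ≤ M ∧ ∀ (k : ℕ) (x : E n),
    ‖fderiv ℝ (chi n k) x‖ ^ 2 ≤ M / rho x := by
  obtain ⟨M, hM, hb⟩ := bump_bound n
  refine ⟨5 * M ^ 2, by positivity, fun k x => ?_⟩
  have hr := rho_pos x
  have hk := kpos k
  rw [(chi_hasFDerivAt k x).fderiv, norm_smul, norm_inv, Real.norm_of_nonneg hk.le]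
  by_cases hx : 2 * ((k : ℝ) + 1) < ‖x‖
  · have h1 : fderiv ℝ (bump n) (((k : ℝ) + 1)⁻¹ • x) = 0 := by
      apply bump_zero
      rw [norm_smul, norm_inv, Real.norm_of_nonneg hk.le, inv_mul_eq_div, lt_div_iff₀ hk]
      exact hx
    rw [h1]
    simp
    positivity
  · push Not at hx
    rw [le_div_iff₀ hr, mul_pow, inv_pow]
    have h2 : rho x ≤ 5 * ((k : ℝ) + 1) ^ 2 := by
      unfold rho
      have h3 : ‖x‖ ^ 2 ≤ (2 * ((k : ℝ) + 1)) ^ 2 := pow_le_pow_left₀ (norm_nonneg _) hx 2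
      have h4 : (1 : ℝ) ≤ (k : ℝ) + 1 := by
        have : (0 : ℝ) ≤ k := Nat.cast_nonneg k
        linarith
      nlinarith
    have h5 : ‖fderiv ℝ (bump n) (((k : ℝ) + 1)⁻¹ • x)‖ ^ 2 ≤ M ^ 2 :=
      pow_le_pow_left₀ (norm_nonneg _) (hb _) 2
    calc (((k : ℝ) + 1) ^ 2)⁻¹ * ‖fderiv ℝ (bump n) (((k : ℝ) + 1)⁻¹ • x)‖ ^ 2 * rho x
        ≤ (((k : ℝ) + 1) ^ 2)⁻¹ * M ^ 2 * (5 * ((k : ℝ) + 1) ^ 2) := by gcongr
      _ = 5 * M ^ 2 := by field_simp

lemma ktend : Tendsto (fun k : ℕ => ((k : ℝ) + 1)⁻¹) atTop (𝓝 0) := by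
  have := tendsto_one_div_add_atTop_nhds_zero_nat (𝕜 := ℝ)
  simpa [one_div] using this

lemma chi_tendsto (x : E n) : Tendsto (fun k : ℕ => chi n k x) atTop (𝓝 1) := by
  have h1 : Tendsto (fun k : ℕ => ((k : ℝ) + 1)⁻¹ • x) atTop (𝓝 ((0 : ℝ) • x)) := ktend.smul_const x
  rw [zero_smul] at h1
  have h2 : Tendsto (bump n) (𝓝 0) (𝓝 (bump n 0)) := (bump n).continuous.tendsto 0
  have h3 : bump n (0 : E n) = 1 := (bump n).one_of_mem_closedBall (by simp [bump])
  rw [h3] at h2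
  exact h2.comp h1

lemma chi_fd_tendsto (x : E n) : Tendsto (fun k : ℕ => fderiv ℝ (chi n k) x) atTop (𝓝 0) := by
  obtain ⟨M, hM, hb⟩ := bump_bound n
  rw [tendsto_zero_iff_norm_tendsto_zero]
  refine squeeze_zero (fun _ => norm_nonneg _) (g := fun k : ℕ => ((k : ℝ) + 1)⁻¹ * M) (fun k => ?_) ?_
  · rw [(chi_hasFDerivAt k x).fderiv, norm_smul, norm_inv, Real.norm_of_nonneg (kpos k).le]
    exact mul_le_mul_of_nonneg_left (hb _) (inv_nonneg.2 (kpos k).le)
  · simpa using ktend.mul_const M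

/-- integrability of powers of the weight -/
lemma rho_int {a : ℝ} (ha : a < -(n : ℝ) / 2) : Integrable (fun x : E n => rho x ^ a) := by
  have := integrable_rpow_neg_one_add_norm_sq (E := E n) (μ := volume) (r := -2 * a)
    (by simp; linarith)
  have e : -(-2 * a) / 2 = a := by ring
  rw [e] at this
  exact this

/-- the cut-off functions `(f - c) χ_k` -/
noncomputable def cut (f : E n → ℝ) (c : ℝ) (k : ℕ) (x : E n) : ℝ := (f x - c) * chi n k x

lemma cut_contDiff {f : E n → ℝ} (hf : ContDiff ℝ ∞ f) (c : ℝ) (k : ℕ) :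
    ContDiff ℝ ∞ (cut f c k) := (hf.sub contDiff_const).mul (chi_contDiff k)

lemma cut_hcs (f : E n → ℝ) (c : ℝ) (k : ℕ) : HasCompactSupport (cut f c k) :=
  (chi_hcs k).mul_left

lemma cut_hasFDerivAt {f : E n → ℝ} (hf : ContDiff ℝ ∞ f) (c : ℝ) (k : ℕ) (x : E n) :
    HasFDerivAt (cut f c k) ((f x - c) • fderiv ℝ (chi n k) x + chi n k x • fderiv ℝ f x) x := by
  have h1 : HasFDerivAt (fun x => f x - c) (fderiv ℝ f x) x :=
    ((hf.differentiable (by simp)) x).hasFDerivAt.sub_const c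
  exact h1.mul ((chi_contDiff k).differentiable (by simp) x).hasFDerivAt

lemma cut_sq_tendsto {f : E n → ℝ} (hf : ContDiff ℝ ∞ f) {c : ℕ → ℝ} {c0 K A α : ℝ}
    (hc : Tendsto c atTop (𝓝 c0))
    (h1 : ∀ k x, (f x - c k) ^ 2 ≤ K * rho x ^ A)
    (hA : α - 1 + A < -(n : ℝ) / 2) :
    Tendsto (fun k : ℕ => ∫ x, rho x ^ (α - 1) * (cut f (c k) k x) ^ 2) atTop
      (𝓝 (∫ x, rho x ^ (α - 1) * (f x - c0) ^ 2)) := by
  refine tendsto_integral_of_dominated_convergence (fun x : E n => K * rho x ^ (α - 1 + A))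
    (fun k => ?_) ((rho_int hA).const_mul K) (fun k => ?_) ?_
  · exact ((rpow_cont _).mul ((cut_contDiff hf _ k).continuous.pow 2)).aestronglyMeasurable
  · refine Eventually.of_forall fun x => ?_
    have hr := rho_pos x
    rw [Real.norm_of_nonneg (by positivity), Real.rpow_add hr]
    have h2 : (cut f (c k) k x) ^ 2 ≤ K * rho x ^ A := by
      unfold cut
      rw [mul_pow]
      calc (f x - c k) ^ 2 * chi n k x ^ 2 ≤ (f x - c k) ^ 2 * 1 := by
            refine mul_le_mul_of_nonneg_left ?_ (sq_nonneg _)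
            have := chi_nonneg k x
            have := chi_le_one k x
            nlinarith
        _ ≤ K * rho x ^ A := by rw [mul_one]; exact h1 k x
    calc rho x ^ (α - 1) * (cut f (c k) k x) ^ 2 ≤ rho x ^ (α - 1) * (K * rho x ^ A) :=
          mul_le_mul_of_nonneg_left h2 (by positivity)
      _ = _ := by ring
  · refine Eventually.of_forall fun x => ?_
    have : Tendsto (fun k : ℕ => rho x ^ (α - 1) * ((f x - c k) * chi n k x) ^ 2) atTop
        (𝓝 (rho x ^ (α - 1) * ((f x - c0) * 1) ^ 2)) :=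
      (((hc.const_sub (f x)).mul (chi_tendsto x)).pow 2).const_mul _
    simpa [cut] using this

lemma cut_en_tendsto {f : E n → ℝ} (hf : ContDiff ℝ ∞ f) {c : ℕ → ℝ} {c0 K A α : ℝ}
    (hc : Tendsto c atTop (𝓝 c0))
    (h1 : ∀ k x, (f x - c k) ^ 2 ≤ K * rho x ^ A)
    (h2 : ∀ x, ‖fderiv ℝ f x‖ ^ 2 ≤ K * rho x ^ (A - 1))
    (hA : α - 1 + A < -(n : ℝ) / 2) :
    Tendsto (fun k : ℕ => ∫ x, rho x ^ α * ‖fderiv ℝ (cut f (c k) k) x‖ ^ 2) atTop
      (𝓝 (∫ x, rho x ^ α * ‖fderiv ℝ f x‖ ^ 2)) := by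
  obtain ⟨M, hM, hb⟩ := chi_fd_bound n
  refine tendsto_integral_of_dominated_convergence
    (fun x : E n => (2 * K * (1 + M)) * rho x ^ (α - 1 + A))
    (fun k => ?_) ((rho_int hA).const_mul _) (fun k => ?_) ?_
  · exact ((rpow_cont _).mul (((cut_contDiff hf _ k).continuous_fderiv
      (by simp)).norm.pow 2)).aestronglyMeasurable
  · refine Eventually.of_forall fun x => ?_
    have hr := rho_pos x
    rw [Real.norm_of_nonneg (by positivity), (cut_hasFDerivAt hf _ k x).fderiv]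
    have e1 : ‖(f x - c k) • fderiv ℝ (chi n k) x + chi n k x • fderiv ℝ f x‖ ≤
        |f x - c k| * ‖fderiv ℝ (chi n k) x‖ + ‖fderiv ℝ f x‖ := by
      refine (norm_add_le _ _).trans ?_
      rw [norm_smul, norm_smul, Real.norm_eq_abs, Real.norm_of_nonneg (chi_nonneg k x)]
      gcongr
      exact mul_le_of_le_one_left (norm_nonneg _) (chi_le_one k x)
    have e2 : ‖(f x - c k) • fderiv ℝ (chi n k) x + chi n k x • fderiv ℝ f x‖ ^ 2 ≤
        2 * ((f x - c k) ^ 2 * ‖fderiv ℝ (chi n k) x‖ ^ 2) + 2 * ‖fderiv ℝ f x‖ ^ 2 := by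
      have e3 := pow_le_pow_left₀ (norm_nonneg _) e1 2
      have e4 := sq_nonneg (|f x - c k| * ‖fderiv ℝ (chi n k) x‖ - ‖fderiv ℝ f x‖)
      rw [← sq_abs (f x - c k)]
      nlinarith
    have e5 : (f x - c k) ^ 2 * ‖fderiv ℝ (chi n k) x‖ ^ 2 ≤ K * rho x ^ A * (M / rho x) :=
      mul_le_mul (h1 k x) (hb k x) (sq_nonneg _) ((sq_nonneg _).trans (h1 k x))
    have e6 : rho x ^ (A - 1) = rho x ^ A / rho x := Real.rpow_sub_one hr.ne' _
    have e7 := h2 x
    have e8 : rho x ^ (α - 1 + A) = rho x ^ α * (rho x ^ A / rho x) := by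
      rw [← e6, ← Real.rpow_add hr]; congr 1; ring
    rw [e6] at e7
    rw [e8]
    calc rho x ^ α * ‖(f x - c k) • fderiv ℝ (chi n k) x + chi n k x • fderiv ℝ f x‖ ^ 2
        ≤ rho x ^ α * (2 * (K * rho x ^ A * (M / rho x)) + 2 * (K * (rho x ^ A / rho x))) := by
          refine mul_le_mul_of_nonneg_left (e2.trans ?_) (by positivity)
          linarith
      _ = _ := by ring
  · refine Eventually.of_forall fun x => ?_
    have : Tendsto (fun k : ℕ => rho x ^ α *
        ‖(f x - c k) • fderiv ℝ (chi n k) x + chi n k x • fderiv ℝ f x‖ ^ 2) atTop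
        (𝓝 (rho x ^ α * ‖(f x - c0) • (0 : E n →L[ℝ] ℝ) + (1 : ℝ) • fderiv ℝ f x‖ ^ 2)) :=
      (((((hc.const_sub (f x)).smul (chi_fd_tendsto x)).add
        ((chi_tendsto x).smul_const (fderiv ℝ f x))).norm).pow 2).const_mul _
    simp only [smul_zero, zero_add, one_smul] at this
    refine this.congr fun k => ?_
    rw [(cut_hasFDerivAt hf _ k x).fderiv]

/-- `I γ = ∫ (1+|x|²)^{-γ}` -/
noncomputable def II (n : ℕ) (γ : ℝ) : ℝ := ∫ x : E n, rho x ^ (-γ)

lemma II_rec {γ : ℝ} (hγ : (n : ℝ) / 2 < γ) :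
    (n : ℝ) * II n γ = 2 * γ * (II n γ - II n (γ + 1)) := by
  obtain ⟨M, hM, hb⟩ := chi_fd_bound n
  have hi1 : Integrable (fun x : E n => rho x ^ (-γ)) := rho_int (by linarith)
  have hi2 : Integrable (fun x : E n => rho x ^ (-(γ + 1))) := rho_int (by linarith)
  have hK : ∀ k, ∫ x, fderiv ℝ (fun x : E n => rho x ^ (-γ) * chi n k x) x x
      = -(n : ℝ) * ∫ x : E n, rho x ^ (-γ) * chi n k x := fun k =>
    euler_ibp ((((rpow_contDiff (-γ)).mul (chi_contDiff k))).of_le (by exact_mod_cast le_top))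
      (chi_hcs k).mul_left
  have hd : ∀ (k : ℕ) (x : E n), fderiv ℝ (fun x : E n => rho x ^ (-γ) * chi n k x) x x =
      -(2 * γ) * (rho x ^ (-γ) - rho x ^ (-(γ + 1))) * chi n k x
        + rho x ^ (-γ) * fderiv ℝ (chi n k) x x := by
    intro k x
    have hr := rho_pos x
    have e1 := (rpow_hasFDerivAt (-γ) x).mul
      ((chi_contDiff k).differentiable (by simp) x).hasFDerivAt
    rw [show (fun x : E n => rho x ^ (-γ) * chi n k x) =
      (fun x : E n => rho x ^ (-γ)) * chi n k from rfl, e1.fderiv]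
    have e2 : rho x ^ (-γ - 1) * ‖x‖ ^ 2 = rho x ^ (-γ) - rho x ^ (-(γ + 1)) := by
      have e3 : ‖x‖ ^ 2 = rho x - 1 := by unfold rho; ring
      rw [e3, mul_sub, ← Real.rpow_add_one hr.ne', mul_one]
      congr 2 <;> ring
    simp only [add_apply, smul_apply, smul_eq_mul,
      innerSL_apply_apply, real_inner_self_eq_norm_sq, nsmul_eq_mul]
    rw [← e2]
    push_cast
    ring
  have L1 : Tendsto (fun k : ℕ => ∫ x : E n, rho x ^ (-γ) * chi n k x) atTop (𝓝 (II n γ)) := by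
    refine tendsto_integral_of_dominated_convergence (fun x : E n => rho x ^ (-γ)) (fun k => ?_)
      hi1 (fun k => ?_) ?_
    · exact ((rpow_cont _).mul (chi_contDiff k).continuous).aestronglyMeasurable
    · refine Eventually.of_forall fun x => ?_
      have hr := Real.rpow_nonneg (rho_pos x).le (-γ)
      rw [Real.norm_of_nonneg (mul_nonneg hr (chi_nonneg k x))]
      exact mul_le_of_le_one_right hr (chi_le_one k x)
    · refine Eventually.of_forall fun x => ?_
      simpa using (chi_tendsto x).const_mul (rho x ^ (-γ))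
  have L2 : Tendsto (fun k : ℕ => ∫ x, fderiv ℝ (fun x : E n => rho x ^ (-γ) * chi n k x) x x) atTop
      (𝓝 (∫ x : E n, -(2 * γ) * (rho x ^ (-γ) - rho x ^ (-(γ + 1))))) := by
    refine tendsto_integral_of_dominated_convergence
      (fun x : E n => (2 * |γ|) * (rho x ^ (-γ)) + (1 + M) * rho x ^ (-γ)) (fun k => ?_)
      ((hi1.const_mul _).add (hi1.const_mul _)) (fun k => ?_) ?_
    · have : Continuous (fun x => fderiv ℝ (fun x : E n => rho x ^ (-γ) * chi n k x) x x) :=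
        ((((rpow_contDiff (-γ)).mul (chi_contDiff k))).continuous_fderiv (by simp)).clm_apply
          continuous_id
      exact this.aestronglyMeasurable
    · refine Eventually.of_forall fun x => ?_
      rw [hd]
      have hr := rho_pos x
      have hr1 := Real.rpow_nonneg (rho_pos x).le (-γ)
      have hr2 := Real.rpow_nonneg (rho_pos x).le (-(γ + 1))
      have hr3 : rho x ^ (-(γ + 1)) ≤ rho x ^ (-γ) :=
        Real.rpow_le_rpow_of_exponent_le (one_le_rho x) (by linarith)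
      refine (norm_add_le _ _).trans (add_le_add ?_ ?_)
      · rw [norm_mul, norm_mul, Real.norm_of_nonneg (chi_nonneg k x), norm_neg, norm_mul,
          Real.norm_eq_abs, Real.norm_eq_abs, Real.norm_eq_abs, abs_of_nonneg (sub_nonneg.2 hr3)]
        rw [abs_of_pos (two_pos)]
        calc 2 * |γ| * (rho x ^ (-γ) - rho x ^ (-(γ + 1))) * chi n k x
            ≤ 2 * |γ| * (rho x ^ (-γ) - rho x ^ (-(γ + 1))) * 1 :=
              mul_le_mul_of_nonneg_left (chi_le_one k x)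
                (mul_nonneg (by positivity) (sub_nonneg.2 hr3))
          _ ≤ _ := by nlinarith [abs_nonneg γ]
      · rw [norm_mul, Real.norm_of_nonneg hr1, mul_comm]
        refine mul_le_mul_of_nonneg_right ?_ hr1
        have e1 : ‖fderiv ℝ (chi n k) x x‖ ≤ ‖fderiv ℝ (chi n k) x‖ * ‖x‖ :=
          (fderiv ℝ (chi n k) x).le_opNorm x
        have e2 := hb k x
        have e3 : (‖fderiv ℝ (chi n k) x‖ * ‖x‖) ^ 2 ≤ M := by
          rw [mul_pow]
          calc ‖fderiv ℝ (chi n k) x‖ ^ 2 * ‖x‖ ^ 2 ≤ M / rho x * rho x :=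
                mul_le_mul e2 (norm_sq_le_rho x) (sq_nonneg _) (by positivity)
            _ = M := by field_simp
        nlinarith [sq_nonneg (‖fderiv ℝ (chi n k) x‖ * ‖x‖ - 1)]
    · refine Eventually.of_forall fun x => ?_
      have : Tendsto (fun k : ℕ => -(2 * γ) * (rho x ^ (-γ) - rho x ^ (-(γ + 1))) * chi n k x
        + rho x ^ (-γ) * fderiv ℝ (chi n k) x x) atTop
        (𝓝 (-(2 * γ) * (rho x ^ (-γ) - rho x ^ (-(γ + 1))) * 1
          + rho x ^ (-γ) * (0 : E n →L[ℝ] ℝ) x)) := by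
        refine ((chi_tendsto x).const_mul _).add (Tendsto.const_mul _ ?_)
        exact ((ContinuousLinearMap.apply ℝ ℝ x).continuous.tendsto _).comp (chi_fd_tendsto x)
      simp only [mul_one, zero_apply, mul_zero, add_zero] at this
      refine this.congr fun k => ?_
      rw [hd]
  have L3 := tendsto_nhds_unique L2 ((L1.const_mul (-(n : ℝ))).congr fun k => (hK k).symm)
  rw [integral_const_mul, integral_sub hi1 hi2] at L3
  unfold II at *
  linarith

end Pool.Agent.TH337.HW
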