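import Mathlib

/-! Definitions and elementary calculus for the weighted Hardy inequality
with weights `(1+|x|²)^α` and `(1+|x|²)^(α-1)`. -/

set_option autoImplicit false

open MeasureTheory Set Filter Topology
open scoped ContDiff RealInnerProductSpace Gradient

namespace Pool.Agent.TH337.HW

/-- Euclidean space. -/
abbrev E (n : ℕ) := EuclideanSpace ℝ (Fin n)

/-- The weight `1 + |x|²`. -/
noncomputable def rho {n : ℕ} (x : E n) : ℝ := 1 + ‖x‖ ^ 2

variable {n : ℕ}

lemma one_le_rho (x : E n) : 1 ≤ rho x := by unfold rho; nlinarith [sq_nonneg ‖x‖]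
lemma rho_pos (x : E n) : 0 < rho x := lt_of_lt_of_le one_pos (one_le_rho x)

lemma rho_contDiff : ContDiff ℝ ∞ (rho (n := n)) := by
  unfold rho
  exact contDiff_const.add (contDiff_norm_sq ℝ)

lemma rpow_contDiff (a : ℝ) : ContDiff ℝ ∞ (fun x : E n => rho x ^ a) :=
  rho_contDiff.rpow_const_of_ne (fun x => (rho_pos x).ne')

lemma rpow_cont (a : ℝ) : Continuous (fun x : E n => rho x ^ a) := (rpow_contDiff a).continuous

lemma rho_hasFDerivAt (x : E n) : HasFDerivAt (rho (n := n)) (2 • innerSL ℝ x) x := by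
  unfold rho
  exact (hasStrictFDerivAt_norm_sq x).hasFDerivAt.const_add 1

lemma rpow_hasFDerivAt (a : ℝ) (x : E n) :
    HasFDerivAt (fun x : E n => rho x ^ a) ((a * rho x ^ (a - 1)) • (2 • innerSL ℝ x)) x :=
  (rho_hasFDerivAt x).rpow_const (Or.inl (rho_pos x).ne')

lemma rpow_fderiv (a : ℝ) (x v : E n) :
    fderiv ℝ (fun x : E n => rho x ^ a) x v = 2 * a * rho x ^ (a - 1) * ⟪x, v⟫ := by
  rw [(rpow_hasFDerivAt a x).fderiv]
  simp
  ring

lemma rpow_fderiv_self (a : ℝ) (x : E n) :
    fderiv ℝ (fun x : E n => rho x ^ a) x x = 2 * a * rho x ^ (a - 1) * ‖x‖ ^ 2 := by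
  rw [rpow_fderiv, real_inner_self_eq_norm_sq]

lemma rpow_fderiv_norm (a : ℝ) (x : E n) :
    ‖fderiv ℝ (fun x : E n => rho x ^ a) x‖ = 2 * |a| * rho x ^ (a - 1) * ‖x‖ := by
  rw [(rpow_hasFDerivAt a x).fderiv, norm_smul, two_smul, ← two_smul ℝ, norm_smul, innerSL_apply_norm]
  rw [Real.norm_eq_abs, abs_mul, abs_of_pos (Real.rpow_pos_of_pos (rho_pos x) _)]
  simp
  ring

/-- Euler's identity, integrated: `∫ x·∇g = -n ∫ g`. -/
lemma euler_ibp {g : E n → ℝ} (hg : ContDiff ℝ 1 g) (hc : HasCompactSupport g) :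
    ∫ x, fderiv ℝ g x x = -(n : ℝ) * ∫ x, g x := by
  have hgi : Integrable g := hg.continuous.integrable_of_hasCompactSupport hc
  have hfc : Continuous (fderiv ℝ g) := hg.continuous_fderiv (by norm_num)
  have hfs : HasCompactSupport (fderiv ℝ g) := hc.fderiv (𝕜 := ℝ)
  have key : ∀ i : Fin n, ∫ x : E n, x i * fderiv ℝ g x (EuclideanSpace.single i 1) =
      - ∫ x, g x := by
    intro i
    have hd : ∀ x : E n, HasFDerivAt (fun y : E n => y i) (EuclideanSpace.proj i : E n →L[ℝ] ℝ) x :=
      fun x => (EuclideanSpace.proj i : E n →L[ℝ] ℝ).hasFDerivAt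
    have hd1 : ∀ x : E n, fderiv ℝ (fun y : E n => y i) x (EuclideanSpace.single i 1) = 1 := by
      intro x
      rw [(hd x).fderiv]
      simp
    have hci : Continuous (fun y : E n => y i) := (EuclideanSpace.proj i : E n →L[ℝ] ℝ).continuous
    have := integral_mul_fderiv_eq_neg_fderiv_mul_of_integrable (μ := (volume : Measure (E n)))
      (f := fun y : E n => y i) (g := g) (v := EuclideanSpace.single i 1)
      (by simpa only [hd1, one_mul] using hgi)
      ((hci.mul (hfc.clm_apply continuous_const)).integrable_of_hasCompactSupport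
        (HasCompactSupport.mul_left (hfs.comp_left (g := fun L : E n →L[ℝ] ℝ =>
          L (EuclideanSpace.single i 1)) (by simp))))
      ((hci.mul hg.continuous).integrable_of_hasCompactSupport hc.mul_left)
      (fun x _ => (hd x).differentiableAt)
      (fun x _ => (hg.differentiable (by norm_num)) x)
    rw [this]
    simp only [hd1, one_mul]
  have hsum : ∀ x : E n, fderiv ℝ g x x =
      ∑ i, x i * fderiv ℝ g x (EuclideanSpace.single i 1) := by
    intro x
    have hx : x = ∑ i, x i • (EuclideanSpace.single i (1 : ℝ) : E n) := by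
      ext j
      simp [Finset.sum_apply, Pi.single_apply]
    conv_lhs => rw [show fderiv ℝ g x x = fderiv ℝ g x (∑ i, x i • (EuclideanSpace.single i (1 : ℝ) : E n)) by
      rw [← hx]]
    rw [map_sum]
    simp
  simp_rw [hsum]
  rw [integral_finsetSum]
  · simp_rw [key]
    simp
  · intro i _
    have hci : Continuous (fun y : E n => y i) := (EuclideanSpace.proj i : E n →L[ℝ] ℝ).continuous
    exact ((hci.mul (hfc.clm_apply continuous_const)).integrable_of_hasCompactSupport
        (HasCompactSupport.mul_left (hfs.comp_left (g := fun L : E n →L[ℝ] ℝ =>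
          L (EuclideanSpace.single i 1)) (by simp))))

end Pool.Agent.TH337.HW
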