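import Pool.Agent.TH337.HW.Defs

set_option autoImplicit false

open MeasureTheory Set Filter Topology
open scoped ContDiff RealInnerProductSpace Gradient

namespace Pool.Agent.TH337.HW

variable {n : ℕ}

lemma norm_sq_le_rho (x : E n) : ‖x‖ ^ 2 ≤ rho x := by unfold rho; linarith

lemma hcs_sq {u : E n → ℝ} (hc : HasCompactSupport u) : HasCompactSupport (fun x => u x ^ 2) :=
  hc.comp_left (g := fun t : ℝ => t ^ 2) (by simp)

lemma hcs_fd {u : E n → ℝ} (hc : HasCompactSupport u) :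
    HasCompactSupport (fun x => ‖fderiv ℝ u x‖ ^ 2) :=
  (hc.fderiv (𝕜 := ℝ)).comp_left (g := fun L : E n →L[ℝ] ℝ => ‖L‖ ^ 2) (by simp)

lemma int_en {u : E n → ℝ} (hu : ContDiff ℝ 1 u) (hc : HasCompactSupport u) (a : ℝ) :
    Integrable (fun x => rho x ^ a * ‖fderiv ℝ u x‖ ^ 2) :=
  ((rpow_cont a).mul ((hu.continuous_fderiv (by norm_num)).norm.pow 2)).integrable_of_hasCompactSupport
    (hcs_fd hc).mul_left

lemma int_sq {u : E n → ℝ} (hu : ContDiff ℝ 1 u) (hc : HasCompactSupport u) (a : ℝ) :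
    Integrable (fun x => rho x ^ a * u x ^ 2) :=
  ((rpow_cont a).mul (hu.continuous.pow 2)).integrable_of_hasCompactSupport
    (hcs_sq hc).mul_left

lemma int_sq' {u : E n → ℝ} (hu : ContDiff ℝ 1 u) (hc : HasCompactSupport u) (a : ℝ) :
    Integrable (fun x => rho x ^ a * ‖x‖ ^ 2 * u x ^ 2) :=
  (((rpow_cont a).mul (continuous_norm.pow 2)).mul
    (hu.continuous.pow 2)).integrable_of_hasCompactSupport (hcs_sq hc).mul_left

/-- integrated divergence identity for the radial field `ρ^(α-1) x`. -/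
lemma div_identity {u : E n → ℝ} (hu : ContDiff ℝ 1 u) (hc : HasCompactSupport u) (α : ℝ) :
    ∫ x, rho x ^ (α - 1) * (2 * u x * fderiv ℝ u x x) =
      -(n : ℝ) * (∫ x, rho x ^ (α - 1) * u x ^ 2)
        - 2 * (α - 1) * ∫ x, rho x ^ (α - 2) * ‖x‖ ^ 2 * u x ^ 2 := by
  have hg : ContDiff ℝ 1 (fun x : E n => rho x ^ (α - 1) * u x ^ 2) :=
    ((rpow_contDiff (α - 1)).of_le (by exact_mod_cast le_top)).mul (hu.pow 2)
  have hgc : HasCompactSupport (fun x : E n => rho x ^ (α - 1) * u x ^ 2) := (hcs_sq hc).mul_left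
  have h1 := euler_ibp hg hgc
  have hd : ∀ x : E n, fderiv ℝ (fun x : E n => rho x ^ (α - 1) * u x ^ 2) x x =
      2 * (α - 1) * (rho x ^ (α - 2) * ‖x‖ ^ 2 * u x ^ 2)
        + rho x ^ (α - 1) * (2 * u x * fderiv ℝ u x x) := by
    intro x
    have e1 := rpow_hasFDerivAt (α - 1) x
    have e2 : HasFDerivAt (fun x => u x ^ 2) ((2 * u x) • fderiv ℝ u x) x := by
      have := ((hu.differentiable (by norm_num)) x).hasFDerivAt.pow 2
      refine this.congr_fderiv ?_
      ext v; simp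
    have e3 := e1.mul e2
    rw [show (fun x : E n => rho x ^ (α - 1) * u x ^ 2) =
      (fun x : E n => rho x ^ (α - 1)) * (fun x => u x ^ 2) from rfl, e3.fderiv]
    have e4 : rho x ^ (α - 1 - 1) = rho x ^ (α - 2) := by congr 1; ring
    simp only [add_apply, smul_apply, smul_eq_mul, e4,
      innerSL_apply_apply, real_inner_self_eq_norm_sq, nsmul_eq_mul]
    push_cast
    ring
  simp_rw [hd] at h1
  rw [integral_add, integral_const_mul] at h1
  · linarith
  · exact (int_sq' hu hc _).const_mul _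
  · have hcc : HasCompactSupport (fun x => 2 * u x * fderiv ℝ u x x) :=
      (hc.mul_left (f := fun _ => (2 : ℝ))).mul_right
    exact ((rpow_cont _).mul ((continuous_const.mul hu.continuous).mul
      ((hu.continuous_fderiv (by norm_num)).clm_apply continuous_id))).integrable_of_hasCompactSupport
        hcc.mul_left

/-- The unconstrained lower bound. -/
lemma lower {u : E n → ℝ} (hu : ContDiff ℝ 1 u) (hc : HasCompactSupport u) (α s : ℝ)
    (hs : 0 ≤ s) (hs1 : α - 1 ≤ s) :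
    2 * s * (n + 2 * α - 2 - 2 * s) * ∫ x, rho x ^ (α - 1) * u x ^ 2 ≤
      ∫ x, rho x ^ α * ‖fderiv ℝ u x‖ ^ 2 := by
  have h0 := div_identity hu hc α
  have hcc : HasCompactSupport (fun x => 2 * u x * fderiv ℝ u x x) :=
      (hc.mul_left (f := fun _ => (2 : ℝ))).mul_right
  have hI : Integrable (fun x => rho x ^ (α - 1) * (2 * u x * fderiv ℝ u x x)) :=
    ((rpow_cont _).mul ((continuous_const.mul hu.continuous).mul
      ((hu.continuous_fderiv (by norm_num)).clm_apply continuous_id))).integrable_of_hasCompactSupport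
        hcc.mul_left
  have h1 : ∫ x, (-(2 * s) * (rho x ^ (α - 1) * (2 * u x * fderiv ℝ u x x))
      - 4 * s ^ 2 * (rho x ^ (α - 2) * ‖x‖ ^ 2 * u x ^ 2)) ≤
      ∫ x, rho x ^ α * ‖fderiv ℝ u x‖ ^ 2 := by
    refine integral_mono ((hI.const_mul _).sub ((int_sq' hu hc _).const_mul _))
      (int_en hu hc _) fun x => ?_
    dsimp only
    have hr := rho_pos x
    have e1 : rho x ^ (α - 1) = rho x ^ α / rho x := by rw [Real.rpow_sub_one hr.ne']
    have e2 : rho x ^ (α - 2) = rho x ^ α / rho x ^ 2 := by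
      rw [Real.rpow_sub hr, Real.rpow_ofNat]
    have hA : 0 < rho x ^ α := Real.rpow_pos_of_pos hr _
    have e3 : |fderiv ℝ u x x| ≤ ‖fderiv ℝ u x‖ * ‖x‖ := (fderiv ℝ u x).le_opNorm x
    have e4 : -(u x * fderiv ℝ u x x) ≤ |u x| * (‖fderiv ℝ u x‖ * ‖x‖) := by
      calc -(u x * fderiv ℝ u x x) ≤ |u x * fderiv ℝ u x x| := neg_le_abs _
        _ = |u x| * |fderiv ℝ u x x| := abs_mul _ _
        _ ≤ _ := mul_le_mul_of_nonneg_left e3 (abs_nonneg _)
    have e5 : 0 ≤ (‖fderiv ℝ u x‖ - 2 * s * (|u x| * ‖x‖ / rho x)) ^ 2 := sq_nonneg _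
    have e6 : rho x ^ α / rho x * (2 * (2 * s) * (-(u x * fderiv ℝ u x x))) ≤
        rho x ^ α / rho x * (2 * (2 * s) * (|u x| * (‖fderiv ℝ u x‖ * ‖x‖))) := by
      have : 0 ≤ rho x ^ α / rho x := by positivity
      exact mul_le_mul_of_nonneg_left (mul_le_mul_of_nonneg_left e4 (by positivity)) this
    have e7 : rho x ^ α * (‖fderiv ℝ u x‖ - 2 * s * (|u x| * ‖x‖ / rho x)) ^ 2
        = rho x ^ α * ‖fderiv ℝ u x‖ ^ 2
          - rho x ^ α / rho x * (2 * (2 * s) * (|u x| * (‖fderiv ℝ u x‖ * ‖x‖)))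
          + 4 * s ^ 2 * (rho x ^ α / rho x ^ 2 * ‖x‖ ^ 2 * u x ^ 2) := by
      rw [← sq_abs (u x)]
      field_simp
      ring
    have e8 : 0 ≤ rho x ^ α * (‖fderiv ℝ u x‖ - 2 * s * (|u x| * ‖x‖ / rho x)) ^ 2 := by positivity
    rw [e1, e2]
    nlinarith [e6, e7, e8]
  rw [integral_sub (hI.const_mul _) ((int_sq' hu hc _).const_mul _), integral_const_mul,
    integral_const_mul, h0] at h1
  have h2 : ∫ x, rho x ^ (α - 2) * ‖x‖ ^ 2 * u x ^ 2 ≤ ∫ x, rho x ^ (α - 1) * u x ^ 2 := by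
    refine integral_mono (int_sq' hu hc _) (int_sq hu hc _) fun x => ?_
    dsimp only
    have hr := rho_pos x
    have e1 : rho x ^ (α - 1) = rho x ^ (α - 2) * rho x := by
      rw [← Real.rpow_add_one hr.ne']; congr 1; ring
    rw [e1]
    exact mul_le_mul_of_nonneg_right (mul_le_mul_of_nonneg_left (norm_sq_le_rho x)
      (Real.rpow_nonneg hr.le _)) (sq_nonneg _)
  have h3 : 0 ≤ 4 * s * (s - (α - 1)) := by
    have : 0 ≤ s - (α - 1) := by linarith
    positivity
  nlinarith [mul_le_mul_of_nonneg_left h2 h3, h1]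

end Pool.Agent.TH337.HW
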