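import Pool.Agent.TH337.HW.Cut

set_option autoImplicit false

open MeasureTheory Set Filter Topology
open scoped ContDiff RealInnerProductSpace Gradient

namespace Pool.Agent.TH337.HW

variable {n : ℕ}

lemma test_ineq {f : E n → ℝ} (hf : ContDiff ℝ ∞ f) {c : ℕ → ℝ} {c0 K A α C : ℝ}
    (hc : Tendsto c atTop (𝓝 c0))
    (h1 : ∀ k x, (f x - c k) ^ 2 ≤ K * rho x ^ A)
    (h2 : ∀ x, ‖fderiv ℝ f x‖ ^ 2 ≤ K * rho x ^ (A - 1))
    (hA : α - 1 + A < -(n : ℝ) / 2)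
    (hC : ∀ k, C * ∫ x, rho x ^ (α - 1) * (cut f (c k) k x) ^ 2 ≤
      ∫ x, rho x ^ α * ‖fderiv ℝ (cut f (c k) k) x‖ ^ 2) :
    C * ∫ x, rho x ^ (α - 1) * (f x - c0) ^ 2 ≤ ∫ x, rho x ^ α * ‖fderiv ℝ f x‖ ^ 2 :=
  le_of_tendsto_of_tendsto' ((cut_sq_tendsto hf hc h1 hA).const_mul C)
    (cut_en_tendsto hf hc h1 h2 hA) hC

lemma II_pos {γ : ℝ} (hγ : (n : ℝ) / 2 < γ) : 0 < II n γ := by
  unfold II
  have hi : Integrable (fun x : E n => rho x ^ (-γ)) := rho_int (by linarith)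
  rw [integral_pos_iff_support_of_nonneg (fun x => Real.rpow_nonneg (rho_pos x).le _) hi]
  have : Function.support (fun x : E n => rho x ^ (-γ)) = univ := by
    ext x; simp [(Real.rpow_pos_of_pos (rho_pos x) _).ne']
  rw [this]
  exact isOpen_univ.measure_pos _ univ_nonempty

/-- energy of a power of the weight -/
lemma en_pow {α b : ℝ} (h : α - 1 + 2 * b < -(n : ℝ) / 2) :
    ∫ x : E n, rho x ^ α * ‖fderiv ℝ (fun x : E n => rho x ^ b) x‖ ^ 2 =
      4 * b ^ 2 * (II n (1 - α - 2 * b) - II n (1 - α - 2 * b + 1)) := by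
  have e : ∀ x : E n, rho x ^ α * ‖fderiv ℝ (fun x : E n => rho x ^ b) x‖ ^ 2 =
      4 * b ^ 2 * (rho x ^ (-(1 - α - 2 * b)) - rho x ^ (-(1 - α - 2 * b + 1))) := by
    intro x
    have hr := rho_pos x
    rw [rpow_fderiv_norm, mul_pow, mul_pow, mul_pow, sq_abs]
    have e1 : ‖x‖ ^ 2 = rho x - 1 := by unfold rho; ring
    have e2 : rho x ^ (-(1 - α - 2 * b)) = rho x ^ α * (rho x ^ (b - 1)) ^ 2 * rho x := by
      rw [← Real.rpow_natCast (rho x ^ (b - 1)) 2, ← Real.rpow_mul hr.le, ← Real.rpow_add hr,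
        ← Real.rpow_add_one hr.ne']
      congr 1; push_cast; ring
    have e3 : rho x ^ (-(1 - α - 2 * b + 1)) = rho x ^ α * (rho x ^ (b - 1)) ^ 2 := by
      rw [← Real.rpow_natCast (rho x ^ (b - 1)) 2, ← Real.rpow_mul hr.le, ← Real.rpow_add hr]
      congr 1; push_cast; ring
    rw [e1, e2, e3]
    ring
  simp_rw [e]
  rw [integral_const_mul, integral_sub (rho_int (by linarith)) (rho_int (by linarith))]
  rfl

lemma en_bound (b : ℝ) (x : E n) :
    ‖fderiv ℝ (fun x : E n => rho x ^ b) x‖ ^ 2 ≤ 4 * b ^ 2 * rho x ^ (2 * b - 1) := by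
  have hr := rho_pos x
  rw [rpow_fderiv_norm, mul_pow, mul_pow, mul_pow, sq_abs]
  have e2 : rho x ^ (2 * b - 1) = (rho x ^ (b - 1)) ^ 2 * rho x := by
    rw [← Real.rpow_natCast (rho x ^ (b - 1)) 2, ← Real.rpow_mul hr.le, ← Real.rpow_add_one hr.ne']
    congr 1; push_cast; ring
  rw [e2]
  have := norm_sq_le_rho x
  have h3 : 0 ≤ 4 * b ^ 2 * (rho x ^ (b - 1)) ^ 2 := by positivity
  nlinarith [mul_le_mul_of_nonneg_left this h3]

/-- The unconstrained test functions `(1+|x|²)^b χ_k`. -/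
lemma upperA {α b C : ℝ} (h : α - 1 + 2 * b < -(n : ℝ) / 2)
    (hC : ∀ u : E n → ℝ, ContDiff ℝ ∞ u → HasCompactSupport u →
      C * ∫ x, rho x ^ (α - 1) * (u x) ^ 2 ≤ ∫ x, rho x ^ α * ‖fderiv ℝ u x‖ ^ 2) :
    C ≤ 2 * n * b ^ 2 / (1 - α - 2 * b) := by
  have h0 := test_ineq (n := n) (f := fun x => rho x ^ b) (c := fun _ => 0) (c0 := 0)
    (K := 1 + 4 * b ^ 2) (A := 2 * b) (α := α) (C := C) (rpow_contDiff b) tendsto_const_nhds
    (fun k x => by
      have hr := rho_pos x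
      rw [sub_zero, ← Real.rpow_natCast (rho x ^ b) 2, ← Real.rpow_mul hr.le]
      have e : b * ((2 : ℕ) : ℝ) = 2 * b := by push_cast; ring
      rw [e]
      have := Real.rpow_nonneg hr.le (2 * b)
      nlinarith [sq_nonneg b, mul_nonneg (mul_nonneg (by norm_num : (0:ℝ) ≤ 4) (sq_nonneg b)) this])
    (fun x => by
      refine (en_bound b x).trans ?_
      have := Real.rpow_nonneg (rho_pos x).le (2 * b - 1)
      nlinarith) h
    (fun k => hC _ (cut_contDiff (rpow_contDiff b) _ _) (cut_hcs _ _ _))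
  rw [en_pow h] at h0
  have e1 : ∫ x : E n, rho x ^ (α - 1) * (rho x ^ b - 0) ^ 2 = II n (1 - α - 2 * b) := by
    unfold II
    congr 1
    ext x
    have hr := rho_pos x
    rw [sub_zero, ← Real.rpow_natCast (rho x ^ b) 2, ← Real.rpow_mul hr.le, ← Real.rpow_add hr]
    congr 1; push_cast; ring
  rw [e1] at h0
  have hγ : (n : ℝ) / 2 < 1 - α - 2 * b := by linarith
  have hI := II_pos hγ
  have h3 := II_rec hγ
  have hn : (0 : ℝ) ≤ n := Nat.cast_nonneg n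
  have hγ0 : 0 < 1 - α - 2 * b := by linarith
  rw [le_div_iff₀ hγ0]
  refine le_of_mul_le_mul_right ?_ hI
  nlinarith

end Pool.Agent.TH337.HW
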