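import Pool.Agent.TH337.HW.Upper

set_option autoImplicit false

open MeasureTheory Set Filter Topology
open scoped ContDiff RealInnerProductSpace Gradient

namespace Pool.Agent.TH337.HW

variable {n : ℕ}

/-- The inequality on all mean-zero test functions. -/
def Hyp (n : ℕ) (α C : ℝ) : Prop := ∀ u : E n → ℝ, ContDiff ℝ ∞ u → HasCompactSupport u →
  ∫ x, rho x ^ (α - 1) * u x = 0 →
  C * ∫ x, rho x ^ (α - 1) * (u x) ^ 2 ≤ ∫ x, rho x ^ α * ‖fderiv ℝ u x‖ ^ 2

lemma chi_mass_pos (a : ℝ) (k : ℕ) : 0 < ∫ x : E n, rho x ^ a * chi n k x := by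
  refine Continuous.integral_pos_of_hasCompactSupport_nonneg_nonzero (x := 0)
    ((rpow_cont a).mul (chi_contDiff k).continuous) (chi_hcs k).mul_left
    (fun x => mul_nonneg (Real.rpow_nonneg (rho_pos x).le _) (chi_nonneg k x)) ?_
  have : chi n k 0 = 1 := by
    unfold chi
    rw [smul_zero]
    exact (bump n).one_of_mem_closedBall (by simp [bump])
  rw [this, mul_one]
  exact (Real.rpow_pos_of_pos (rho_pos 0) _).ne'

lemma chi_mass_tendsto {a : ℝ} (ha : a < -(n : ℝ) / 2) :
    Tendsto (fun k : ℕ => ∫ x : E n, rho x ^ a * chi n k x) atTop (𝓝 (II n (-a))) := by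
  unfold II
  rw [neg_neg]
  refine tendsto_integral_of_dominated_convergence (fun x : E n => rho x ^ a) (fun k => ?_)
    (rho_int ha) (fun k => ?_) ?_
  · exact ((rpow_cont _).mul (chi_contDiff k).continuous).aestronglyMeasurable
  · refine Eventually.of_forall fun x => ?_
    have hr := Real.rpow_nonneg (rho_pos x).le a
    rw [Real.norm_of_nonneg (mul_nonneg hr (chi_nonneg k x))]
    exact mul_le_of_le_one_right hr (chi_le_one k x)
  · refine Eventually.of_forall fun x => ?_
    simpa using (chi_tendsto x).const_mul (rho x ^ a)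

/-- Test functions `((1+|x|²)^b - c_k) χ_k`. -/
lemma upperB {α b C : ℝ} (hb : 0 < b) (h : α - 1 + 2 * b < -(n : ℝ) / 2) (hC : Hyp n α C) :
    C * (II n (1 - α - 2 * b) - II n (1 - α - b) ^ 2 / II n (1 - α)) ≤
      4 * b ^ 2 * (II n (1 - α - 2 * b) - II n (1 - α - 2 * b + 1)) := by
  have hI0 : 0 < II n (1 - α) := II_pos (by linarith)
  set c : ℕ → ℝ := fun k => (∫ x : E n, rho x ^ (α - 1 + b) * chi n k x) /
    ∫ x : E n, rho x ^ (α - 1) * chi n k x with hcdef
  set c0 := II n (1 - α - b) / II n (1 - α) with hc0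
  have hct : Tendsto c atTop (𝓝 c0) := by
    have t1 := chi_mass_tendsto (n := n) (a := α - 1 + b) (by linarith)
    have t2 := chi_mass_tendsto (n := n) (a := α - 1) (by linarith)
    have e1 : -(α - 1 + b) = 1 - α - b := by ring
    have e2 : -(α - 1) = 1 - α := by ring
    rw [e1] at t1
    rw [e2] at t2
    exact t1.div t2 hI0.ne'
  obtain ⟨K, hK⟩ := hct.bddAbove_range
  have hcK : ∀ k, c k ≤ K := fun k => hK ⟨k, rfl⟩
  have hcn : ∀ k, 0 ≤ c k := fun k => by
    rw [hcdef]
    exact div_nonneg (chi_mass_pos _ k).le (chi_mass_pos _ k).le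
  have hK0 : 0 ≤ K := (hcn 0).trans (hcK 0)
  have hpow : ∀ (x : E n), (rho x ^ b) ^ 2 = rho x ^ (2 * b) := by
    intro x
    have hr := rho_pos x
    rw [← Real.rpow_natCast (rho x ^ b) 2, ← Real.rpow_mul hr.le]
    congr 1; push_cast; ring
  have h0 := test_ineq (n := n) (f := fun x => rho x ^ b) (c := c) (c0 := c0)
    (K := 2 + 2 * K ^ 2 + 4 * b ^ 2) (A := 2 * b) (α := α) (C := C) (rpow_contDiff b) hct
    (fun k x => by
      have hr := rho_pos x
      have h1 : (rho x ^ b - c k) ^ 2 ≤ 2 * (rho x ^ b) ^ 2 + 2 * (c k) ^ 2 := by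
        nlinarith [sq_nonneg (rho x ^ b + c k)]
      have h2 : (c k) ^ 2 ≤ K ^ 2 := pow_le_pow_left₀ (hcn k) (hcK k) 2
      have h3 : (1 : ℝ) ≤ rho x ^ (2 * b) := Real.one_le_rpow (one_le_rho x) (by linarith)
      rw [hpow] at h1
      nlinarith [mul_nonneg (sq_nonneg b) (zero_le_one.trans h3),
        mul_le_mul_of_nonneg_left h3 (sq_nonneg K)])
    (fun x => by
      refine (en_bound b x).trans ?_
      have := Real.rpow_nonneg (rho_pos x).le (2 * b - 1)
      have h5 : 0 ≤ 2 + 2 * K ^ 2 := by positivity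
      nlinarith) h
    (fun k => by
      refine hC _ (cut_contDiff (rpow_contDiff b) _ _) (cut_hcs _ _ _) ?_
      have e : ∀ x : E n, rho x ^ (α - 1) * cut (fun x => rho x ^ b) (c k) k x =
          rho x ^ (α - 1 + b) * chi n k x - c k * (rho x ^ (α - 1) * chi n k x) := by
        intro x
        unfold cut
        rw [Real.rpow_add (rho_pos x)]
        ring
      simp_rw [e]
      have i1 : Integrable (fun x : E n => rho x ^ (α - 1 + b) * chi n k x) :=
        ((rpow_cont _).mul (chi_contDiff k).continuous).integrable_of_hasCompactSupport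
          (chi_hcs k).mul_left
      have i2 : Integrable (fun x : E n => rho x ^ (α - 1) * chi n k x) :=
        ((rpow_cont _).mul (chi_contDiff k).continuous).integrable_of_hasCompactSupport
          (chi_hcs k).mul_left
      rw [integral_sub i1 (i2.const_mul _), integral_const_mul, hcdef]
      dsimp only
      rw [div_mul_cancel₀ _ (chi_mass_pos _ k).ne', sub_self])
  rw [en_pow h] at h0
  have e1 : ∫ x : E n, rho x ^ (α - 1) * (rho x ^ b - c0) ^ 2 =
      II n (1 - α - 2 * b) - II n (1 - α - b) ^ 2 / II n (1 - α) := by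
    have i1 : Integrable (fun x : E n => rho x ^ (-(1 - α - 2 * b))) := rho_int (by linarith)
    have i2 : Integrable (fun x : E n => rho x ^ (-(1 - α - b))) := rho_int (by linarith)
    have i3 : Integrable (fun x : E n => rho x ^ (-(1 - α))) := rho_int (by linarith)
    have e : ∀ x : E n, rho x ^ (α - 1) * (rho x ^ b - c0) ^ 2 =
        rho x ^ (-(1 - α - 2 * b)) - 2 * c0 * rho x ^ (-(1 - α - b))
          + c0 ^ 2 * rho x ^ (-(1 - α)) := by
      intro x
      have hr := rho_pos x
      have s1 : rho x ^ (-(1 - α - 2 * b)) = rho x ^ (α - 1) * (rho x ^ b) ^ 2 := by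
        rw [hpow, ← Real.rpow_add hr]; congr 1; ring
      have s2 : rho x ^ (-(1 - α - b)) = rho x ^ (α - 1) * rho x ^ b := by
        rw [← Real.rpow_add hr]; congr 1; ring
      have s3 : rho x ^ (-(1 - α)) = rho x ^ (α - 1) := by congr 1; ring
      rw [s1, s2, s3]; ring
    simp_rw [e]
    have i12 : Integrable (fun x : E n => rho x ^ (-(1 - α - 2 * b))
        - 2 * c0 * rho x ^ (-(1 - α - b))) := i1.sub (i2.const_mul _)
    rw [integral_add i12 (i3.const_mul _),
      integral_sub i1 (i2.const_mul _), integral_const_mul, integral_const_mul]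
    change II n (1 - α - 2 * b) - 2 * c0 * II n (1 - α - b) + c0 ^ 2 * II n (1 - α) = _
    rw [hc0]
    field_simp
    ring
  rw [e1] at h0
  exact h0

/-- eigenvalue `-4α-2n`. -/
lemma upperB2 {α C : ℝ} (hn : 0 < (n : ℝ)) (h : α < -((n : ℝ) + 2) / 2) (hC : Hyp n α C) :
    C ≤ -4 * α - 2 * n := by
  have h1 := upperB one_pos (by linarith) hC
  have r1 := II_rec (n := n) (γ := 1 - α - 2 * 1) (by linarith)
  have r2 := II_rec (n := n) (γ := 1 - α - 1) (by linarith)
  have p0 := II_pos (n := n) (γ := 1 - α) (by linarith)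
  have p1 := II_pos (n := n) (γ := 1 - α - 1) (by linarith)
  have s1 : 1 - α - 2 * 1 + 1 = 1 - α - 1 := by ring
  have s2 : 1 - α - 1 + 1 = 1 - α := by ring
  rw [s1] at r1 h1
  rw [s2] at r2
  set I2 := II n (1 - α - 2 * 1) with hI2
  set I1 := II n (1 - α - 1) with hI1
  set I0 := II n (1 - α) with hI0
  set D : ℝ := -2 - 2 * α - n with hD
  have hD0 : 0 < D := by rw [hD]; linarith
  have hα : 0 < -α := by linarith
  have e2 : I2 = 2 * (-1 - α) * I1 / D := by
    rw [eq_div_iff hD0.ne', hD]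
    linarith
  have e0 : I0 = I1 * (D + 2) / (2 * (-α)) := by
    rw [eq_div_iff (by positivity), hD]
    linarith
  have e3 : I1 ^ 2 / I0 = I1 * (2 * (-α)) / (D + 2) := by
    rw [e0]
    have : D + 2 ≠ 0 := by positivity
    field_simp
  have e4 : I2 - I1 ^ 2 / I0 = I1 * (2 * n) / (D * (D + 2)) := by
    rw [e3, e2]
    have : D + 2 ≠ 0 := by positivity
    field_simp
    rw [hD]; ring
  have e5 : I2 - I1 = I1 * n / D := by
    rw [e2]
    field_simp
    rw [hD]; ring
  rw [e4, e5] at h1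
  have h2 : C * 2 ≤ 4 * (D + 2) := by
    have hk : 0 < I1 * n / (D * (D + 2)) := by positivity
    refine le_of_mul_le_mul_right ?_ hk
    calc C * 2 * (I1 * n / (D * (D + 2))) = C * (I1 * (2 * n) / (D * (D + 2))) := by ring
      _ ≤ 4 * 1 ^ 2 * (I1 * n / D) := h1
      _ = 4 * (D + 2) * (I1 * n / (D * (D + 2))) := by field_simp
  rw [hD] at h2
  linarith

/-- bottom of the essential spectrum. -/
lemma upperB1 {α C : ℝ} (hn : 0 < (n : ℝ)) (h : α < -((n : ℝ) - 2) / 2) (hC : Hyp n α C) :
    C ≤ (n + 2 * α - 2) ^ 2 / 4 := by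
  set s : ℝ := -α - (n - 2) / 2 with hs
  have hs0 : 0 < s := by rw [hs]; linarith
  have hss : (n + 2 * α - 2) ^ 2 / 4 = s ^ 2 := by rw [hs]; ring
  rw [hss]
  rcases le_or_gt C 0 with hC0 | hC0
  · exact hC0.trans (sq_nonneg s)
  have p0 := II_pos (n := n) (γ := 1 - α) (by linarith)
  have p1 := II_pos (n := n) (γ := (n : ℝ) / 2 + 2) (by linarith)
  set K : ℝ := II n (1 - α - s / 2) ^ 2 / II n (1 - α) with hK
  have hK0 : 0 ≤ K := by positivity
  have key : ∀ ε : ℝ, 0 < ε → ε < s / 2 → ε < 1 / 2 →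
      C * (1 - K * (4 * ε) / (n * II n ((n : ℝ) / 2 + 2))) ≤ s ^ 2 := by
    intro ε h1 h2 h3
    have hb : 0 < s / 2 - ε := by linarith
    have hc1 : α - 1 + 2 * (s / 2 - ε) < -(n : ℝ) / 2 := by rw [hs]; linarith
    have h4 := upperB hb hc1 hC
    have g1 : 1 - α - 2 * (s / 2 - ε) = (n : ℝ) / 2 + 2 * ε := by rw [hs]; ring
    rw [g1] at h4
    have g2 := II_rec (n := n) (γ := (n : ℝ) / 2 + 2 * ε) (by linarith)
    have g3 := II_pos (n := n) (γ := (n : ℝ) / 2 + 2 * ε) (by linarith)
    have g4 := II_pos (n := n) (γ := (n : ℝ) / 2 + 2 * ε + 1) (by linarith)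
    have mono : ∀ a b : ℝ, (n : ℝ) / 2 < a → a ≤ b → II n b ≤ II n a := by
      intro a b ha hab
      unfold II
      refine integral_mono (rho_int (by linarith)) (rho_int (by linarith)) fun x => ?_
      exact Real.rpow_le_rpow_of_exponent_le (one_le_rho x) (by linarith)
    have g5 : II n ((n : ℝ) / 2 + 2) ≤ II n ((n : ℝ) / 2 + 2 * ε + 1) :=
      mono _ _ (by linarith) (by linarith)
    have g6 : II n (1 - α - (s / 2 - ε)) ≤ II n (1 - α - s / 2) :=
      mono _ _ (by rw [hs]; linarith) (by linarith)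
    have g7 : 0 < II n (1 - α - (s / 2 - ε)) := II_pos (by rw [hs]; linarith)
    have g8 : II n (1 - α - (s / 2 - ε)) ^ 2 / II n (1 - α) ≤ K := by
      rw [hK]
      gcongr
    set J := II n ((n : ℝ) / 2 + 2 * ε) with hJ
    have g9 : (n : ℝ) * II n ((n : ℝ) / 2 + 2) ≤ 4 * ε * J := by
      have : (n : ℝ) * II n ((n : ℝ) / 2 + 2) ≤ n * II n ((n : ℝ) / 2 + 2 * ε + 1) :=
        mul_le_mul_of_nonneg_left g5 hn.le
      nlinarith
    have g10 : C * (J - K) ≤ s ^ 2 * J := by
      have : C * (J - K) ≤ C * (J - II n (1 - α - (s / 2 - ε)) ^ 2 / II n (1 - α)) :=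
        mul_le_mul_of_nonneg_left (by linarith) hC0.le
      have h5 : 4 * (s / 2 - ε) ^ 2 ≤ s ^ 2 := by nlinarith
      have h6 : 4 * (s / 2 - ε) ^ 2 * (J - II n ((n : ℝ) / 2 + 2 * ε + 1)) ≤ s ^ 2 * J := by
        have h7 : J - II n ((n : ℝ) / 2 + 2 * ε + 1) ≤ J := by linarith
        calc 4 * (s / 2 - ε) ^ 2 * (J - II n ((n : ℝ) / 2 + 2 * ε + 1))
            ≤ 4 * (s / 2 - ε) ^ 2 * J := mul_le_mul_of_nonneg_left h7 (by positivity)
          _ ≤ s ^ 2 * J := mul_le_mul_of_nonneg_right h5 g3.le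
      linarith
    have g11 : 1 / J ≤ 4 * ε / (n * II n ((n : ℝ) / 2 + 2)) := by
      rw [div_le_div_iff₀ g3 (by positivity)]
      linarith
    have g12 : C * (1 - K / J) ≤ s ^ 2 := by
      have : C * (1 - K / J) = C * (J - K) / J := by field_simp
      rw [this, div_le_iff₀ g3]
      exact g10
    have g13 : K / J ≤ K * (4 * ε) / (n * II n ((n : ℝ) / 2 + 2)) := by
      calc K / J = K * (1 / J) := by ring
        _ ≤ K * (4 * ε / (n * II n ((n : ℝ) / 2 + 2))) := mul_le_mul_of_nonneg_left g11 hK0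
        _ = _ := by ring
    calc C * (1 - K * (4 * ε) / (n * II n ((n : ℝ) / 2 + 2))) ≤ C * (1 - K / J) :=
          mul_le_mul_of_nonneg_left (by linarith) hC0.le
      _ ≤ s ^ 2 := g12
  have hcont : Tendsto (fun ε : ℝ => C * (1 - K * (4 * ε) / (n * II n ((n : ℝ) / 2 + 2))))
      (𝓝[>] 0) (𝓝 C) := by
    have : Tendsto (fun ε : ℝ => C * (1 - K * (4 * ε) / (n * II n ((n : ℝ) / 2 + 2))))
      (𝓝 0) (𝓝 (C * (1 - K * (4 * 0) / (n * II n ((n : ℝ) / 2 + 2))))) := by
      apply Continuous.tendsto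
      fun_prop
    simp only [mul_zero, zero_div, sub_zero, mul_one] at this
    exact this.mono_left nhdsWithin_le_nhds
  refine le_of_tendsto hcont ?_
  have hmem : Ioo (0 : ℝ) (min (s / 2) (1 / 2)) ∈ 𝓝[>] (0 : ℝ) :=
    Ioo_mem_nhdsGT (by positivity)
  filter_upwards [hmem] with ε hε
  exact key ε hε.1 (hε.2.trans_le (min_le_left _ _)) (hε.2.trans_le (min_le_right _ _))

/-- eigenvalue `-2α` (coordinate functions). -/
lemma upperB3 {α C : ℝ} (hn : 0 < (n : ℝ)) (h : α < -(n : ℝ) / 2) (hC : Hyp n α C) :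
    C ≤ -2 * α := by
  have key : ∀ i : Fin n, C * ∫ x : E n, rho x ^ (α - 1) * (x i) ^ 2 ≤ ∫ x : E n, rho x ^ α := by
    intro i
    have hf : ContDiff ℝ ∞ (fun x : E n => x i) :=
      (EuclideanSpace.proj i : E n →L[ℝ] ℝ).contDiff
    have hfd : ∀ x : E n, fderiv ℝ (fun x : E n => x i) x = EuclideanSpace.proj i := fun x =>
      (EuclideanSpace.proj i : E n →L[ℝ] ℝ).hasFDerivAt.fderiv
    have hnorm : ‖(EuclideanSpace.proj i : E n →L[ℝ] ℝ)‖ ≤ 1 := by
      refine ContinuousLinearMap.opNorm_le_bound _ zero_le_one fun x => ?_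
      rw [one_mul]
      exact PiLp.norm_apply_le x i
    have h0 := test_ineq (n := n) (f := fun x => x i) (c := fun _ => 0) (c0 := 0)
      (K := 1) (A := 1) (α := α) (C := C) hf tendsto_const_nhds
      (fun k x => by
        rw [sub_zero, Real.rpow_one, one_mul]
        refine le_trans ?_ (norm_sq_le_rho x)
        have := PiLp.norm_apply_le x i
        rw [Real.norm_eq_abs] at this
        rw [← sq_abs]
        exact pow_le_pow_left₀ (abs_nonneg _) this 2)
      (fun x => by
        rw [hfd, sub_self, Real.rpow_zero, mul_one]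
        exact pow_le_one₀ (norm_nonneg _) hnorm) (by linarith)
      (fun k => by
        refine hC _ (cut_contDiff hf _ _) (cut_hcs _ _ _) ?_
        set F : E n → ℝ := fun x => rho x ^ (α - 1) * cut (fun x => x i) 0 k x with hF
        have hodd : ∀ x, F (-x) = -F x := by
          intro x
          simp only [hF, cut, chi_even, sub_zero]
          have : rho (-x) = rho x := by simp [rho]
          rw [this]
          simp
        have h1 : ∫ x, F (-x) = ∫ x, F x := integral_neg_eq_self F volume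
        simp_rw [hodd] at h1
        rw [integral_neg] at h1
        linarith)
    simp only [sub_zero] at h0
    refine h0.trans ?_
    refine integral_mono_of_nonneg (Eventually.of_forall fun x =>
      mul_nonneg (Real.rpow_nonneg (rho_pos x).le _) (sq_nonneg _)) (rho_int (by linarith))
      (Eventually.of_forall fun x => ?_)
    dsimp only
    rw [hfd]
    exact mul_le_of_le_one_right (Real.rpow_nonneg (rho_pos x).le _)
      (pow_le_one₀ (norm_nonneg _) hnorm)
  have hsum := Finset.sum_le_sum fun i (_ : i ∈ Finset.univ) => key i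
  have hii : ∀ i : Fin n, Integrable (fun x : E n => rho x ^ (α - 1) * (x i) ^ 2) := by
    intro i
    refine (rho_int (a := α) (by linarith)).mono'
      ((rpow_cont _).mul (((EuclideanSpace.proj i : E n →L[ℝ] ℝ).continuous).pow 2)).aestronglyMeasurable
      (Eventually.of_forall fun x => ?_)
    have hr := rho_pos x
    rw [Real.norm_of_nonneg (mul_nonneg (Real.rpow_nonneg hr.le _) (sq_nonneg _))]
    have e1 : rho x ^ α = rho x ^ (α - 1) * rho x := by
      rw [← Real.rpow_add_one hr.ne']; congr 1; ring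
    rw [e1]
    refine mul_le_mul_of_nonneg_left ?_ (Real.rpow_nonneg hr.le _)
    refine le_trans ?_ (norm_sq_le_rho x)
    have := PiLp.norm_apply_le x i
    rw [Real.norm_eq_abs] at this
    rw [← sq_abs]
    exact pow_le_pow_left₀ (abs_nonneg _) this 2
  rw [← Finset.mul_sum, ← integral_finsetSum _ (fun i _ => hii i)] at hsum
  have e1 : ∀ x : E n, ∑ i, rho x ^ (α - 1) * (x i) ^ 2 = rho x ^ (-(-α)) - rho x ^ (-(-α + 1)) := by
    intro x
    have hr := rho_pos x
    rw [← Finset.mul_sum, ← EuclideanSpace.real_norm_sq_eq x]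
    have e2 : ‖x‖ ^ 2 = rho x - 1 := by unfold rho; ring
    rw [e2, mul_sub, ← Real.rpow_add_one hr.ne', mul_one]
    congr 2 <;> ring
  simp_rw [e1] at hsum
  rw [integral_sub (rho_int (by linarith)) (rho_int (by linarith))] at hsum
  have r := II_rec (n := n) (γ := -α) (by linarith)
  have p := II_pos (n := n) (γ := -α) (by linarith)
  have e3 : ∫ x : E n, rho x ^ α = II n (-α) := by unfold II; rw [neg_neg]
  rw [e3] at hsum
  simp only [Finset.sum_const, Finset.card_univ, Fintype.card_fin, nsmul_eq_mul] at hsum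
  change C * (II n (-α) - II n (-α + 1)) ≤ n * II n (-α) at hsum
  rw [r] at hsum
  have q : 0 < II n (-α) - II n (-α + 1) := by
    by_contra hcon
    push Not at hcon
    have hα : 0 < -α := by linarith
    have : 2 * (-α) * (II n (-α) - II n (-α + 1)) ≤ 0 := by nlinarith
    rw [← r] at this
    nlinarith [mul_pos hn p]
  refine le_of_mul_le_mul_right ?_ q
  linarith

end Pool.Agent.TH337.HW
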